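import Pool.Agent.K6.H55.HQ.Stm

set_option autoImplicit false

namespace Pool.Agent.K6.H55.HQ

namespace ARIA

theorem pow_bound (L : ℕ) (hL : 10 ≤ L) : 6 * (1 + (L + 1) * (L + 2)) ≤ 2 ^ L := by
  induction L, hL using Nat.le_induction with
  | base => norm_num
  | succ n hn ih =>
    rw [pow_succ]
    nlinarith

theorem log_ge {r : ℕ} (hr : 1024 ≤ r) : 10 ≤ Nat.log 2 r := by
  have : Nat.log 2 1024 = 10 := by
    rw [show 1024 = 2 ^ 10 by norm_num]
    exact Nat.log_pow (by norm_num) 10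
  rw [← this]
  exact Nat.log_mono_right hr

theorem main (r : ℕ) (hr : 1024 ≤ r) : 2 * (r + 1) * r ^ Nat.log 2 r * r ≤ 2 ^ (r / 6) := by
  set L := Nat.log 2 r with hL
  have h10 : 10 ≤ L := log_ge hr
  have h1 : r < 2 ^ (L + 1) := Nat.lt_pow_succ_log_self (by norm_num) r
  have h2 : 2 ^ L ≤ r := Nat.pow_log_le_self 2 (by omega)
  have h3 := pow_bound L h10
  have h4 : 1 + (L + 1) * (L + 2) ≤ r / 6 := by
    rw [Nat.le_div_iff_mul_le (by norm_num)]
    omega
  calc 2 * (r + 1) * r ^ L * r ≤ 2 * 2 ^ (L + 1) * (2 ^ (L + 1)) ^ L * 2 ^ (L + 1) := by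
        gcongr
        omega
    _ = 2 ^ (1 + (L + 1) * (L + 2)) := by
        rw [← pow_mul]
        ring
    _ ≤ 2 ^ (r / 6) := Nat.pow_le_pow_right (by norm_num) h4

theorem tend (N : ℕ → ℕ) (e : ℕ → ℕ) (h : ∀ r, 1024 ≤ r → N r * r ≤ 2 ^ e r) :
    Filter.Tendsto (fun r : ℕ => ((N r : ℕ) : ℝ) / 2 ^ e r) Filter.atTop (nhds 0) := by
  refine squeeze_zero' (Filter.Eventually.of_forall fun r => by positivity) ?_
    (tendsto_one_div_atTop_nhds_zero_nat (𝕜 := ℝ))
  filter_upwards [Filter.eventually_ge_atTop 1024] with r hr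
  have h1 := h r hr
  have h2 : ((N r : ℕ) : ℝ) * r ≤ 2 ^ e r := by exact_mod_cast h1
  have h3 : (0 : ℝ) < r := by
    have : 0 < r := by omega
    exact_mod_cast this
  rw [div_le_div_iff₀ (by positivity) h3, one_mul]
  exact h2

end ARIA

theorem t_ARIA : S_ARIA := by
  have := ARIA.tend (fun r => 2 * (r + 1) * r ^ Nat.log 2 r) (fun r => r / 6)
    (fun r hr => ARIA.main r hr)
  exact this

end Pool.Agent.K6.H55.HQ
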