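import Pool.Agent.K6.H55.HQ.ARIA

set_option autoImplicit false

namespace Pool.Agent.K6.H55.HQ

namespace ARIB

theorem main (r : ℕ) (hr : 1024 ≤ r) :
    (3 * r) ^ (r + 1) * (2 * (r + 1).factorial) * r ≤ 2 ^ (r ^ 2 / 6) := by
  set L := Nat.log 2 r with hL
  have h10 : 10 ≤ L := ARIA.log_ge hr
  have h1 : r < 2 ^ (L + 1) := Nat.lt_pow_succ_log_self (by norm_num) r
  have h2 : 2 ^ L ≤ r := Nat.pow_log_le_self 2 (by omega)
  have h3 := ARIA.pow_bound L h10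
  have h5 : 12 * (2 * L + 5) ≤ r := by nlinarith
  have h4 : (2 * L + 4) * (r + 1) + (L + 2) ≤ r ^ 2 / 6 := by
    rw [Nat.le_div_iff_mul_le (by norm_num)]
    nlinarith
  have h6 : 3 * r ≤ 2 ^ (L + 3) := by
    have : 2 ^ (L + 3) = 4 * 2 ^ (L + 1) := by ring
    omega
  have h7 : (r + 1).factorial ≤ (2 ^ (L + 1)) ^ (r + 1) :=
    (Nat.factorial_le_pow (r + 1)).trans (Nat.pow_le_pow_left (by omega) _)
  calc (3 * r) ^ (r + 1) * (2 * (r + 1).factorial) * r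
      ≤ (2 ^ (L + 3)) ^ (r + 1) * (2 * (2 ^ (L + 1)) ^ (r + 1)) * 2 ^ (L + 1) := by
        gcongr
    _ = 2 ^ ((2 * L + 4) * (r + 1) + (L + 2)) := by
        rw [← pow_mul, ← pow_mul]
        have : 2 * 2 ^ ((L + 1) * (r + 1)) = 2 ^ ((L + 1) * (r + 1) + 1) := by
          rw [pow_succ]; ring
        rw [this, ← pow_add, ← pow_add]
        congr 1
        ring
    _ ≤ 2 ^ (r ^ 2 / 6) := Nat.pow_le_pow_right (by norm_num) h4

end ARIB

theorem t_ARIB : S_ARIB := by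
  have := ARIA.tend (fun r => (3 * r) ^ (r + 1) * (2 * (r + 1).factorial)) (fun r => r ^ 2 / 6)
    (fun r hr => ARIB.main r hr)
  exact this

end Pool.Agent.K6.H55.HQ
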