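import Pool.Agent.K6.H55.HQ.Stm

/-! # Piece ASS of MP_7ea459_al: associativity of `hypOf ε M` for good `M` (helper27) -/

set_option autoImplicit false

namespace Pool.Agent.K6.H55.HQ

namespace ASS

variable {r : ℕ} [CommGroup (U r)] (ε : U r) (M : Set (Orb (U r)))

theorem left_mem (hG : Good M) (a b c d : U r) :
    ∃ x : U r, x.1 ∈ hypOf ε M a.1 b.1 ∧ d.1 ∈ hypOf ε M x.1 c.1 := by
  obtain ⟨w, h1, h2⟩ := hG (a⁻¹ * b) (c⁻¹ * (ε * d)) (c⁻¹ * (a * ε⁻¹))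
  refine ⟨a * ε⁻¹ * w, ?_, ?_⟩
  · rw [hyp_mem]
    have e : a⁻¹ * (ε * (a * ε⁻¹ * w)) = w := by
      calc a⁻¹ * (ε * (a * ε⁻¹ * w)) = (a⁻¹ * a) * (ε * ε⁻¹) * w := by
            simp only [mul_assoc, mul_left_comm]
        _ = w := by simp
    rw [e]
    exact h1
  · rw [hyp_mem, mk_inv, mk_swap]
    have e1 : ((a * ε⁻¹ * w)⁻¹ * c)⁻¹ * ((a * ε⁻¹ * w)⁻¹ * (ε * d)) = c⁻¹ * (ε * d) := by
      generalize a * ε⁻¹ * w = x
      rw [mul_inv_rev, inv_inv]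
      group
    have e2 : ((a * ε⁻¹ * w)⁻¹ * c)⁻¹ = c⁻¹ * (a * ε⁻¹) * w := by
      rw [mul_inv_rev, inv_inv]
      group
    rw [e1, e2]
    exact h2

theorem right_mem (hG : Good M) (a b c d : U r) :
    ∃ x : U r, x.1 ∈ hypOf ε M b.1 c.1 ∧ d.1 ∈ hypOf ε M a.1 x.1 := by
  obtain ⟨w, h1, h2⟩ := hG (b⁻¹ * c) (a⁻¹ * (ε * d)) (a⁻¹ * (b * ε⁻¹))
  refine ⟨b * ε⁻¹ * w, ?_, ?_⟩
  · rw [hyp_mem]
    have e : b⁻¹ * (ε * (b * ε⁻¹ * w)) = w := by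
      calc b⁻¹ * (ε * (b * ε⁻¹ * w)) = (b⁻¹ * b) * (ε * ε⁻¹) * w := by
            simp only [mul_assoc, mul_left_comm]
        _ = w := by simp
    rw [e]
    exact h1
  · rw [hyp_mem, mk_swap]
    have e2 : a⁻¹ * (b * ε⁻¹ * w) = a⁻¹ * (b * ε⁻¹) * w := by
      group
    rw [e2]
    exact h2

theorem zero_left (hε : ε * ε = 1) (a b c : U r) :
    (∃ x ∈ hypOf ε M a.1 b.1, (0 : Fin (r+1)) ∈ hypOf ε M x c.1) ↔
      mk (a⁻¹ * b) (a⁻¹ * c) ∈ M := by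
  constructor
  · rintro ⟨x, hx, h0⟩
    by_cases hx0 : x = 0
    · subst hx0
      rw [hyp_zero_left, Set.mem_singleton_iff] at h0
      exact absurd h0.symm c.2
    · obtain ⟨y, rfl⟩ : ∃ y : U r, y.1 = x := ⟨⟨x, hx0⟩, rfl⟩
      rw [hyp_zero_mem] at h0
      rw [hyp_mem] at hx
      rw [h0]
      exact hx
  · intro h
    refine ⟨(ε * c).1, ?_, ?_⟩
    · rw [hyp_mem, ← mul_assoc ε, hε, one_mul]
      exact h
    · rw [hyp_zero_mem, ← mul_assoc, hε, one_mul]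

theorem zero_right (hε : ε * ε = 1) (a b c : U r) :
    (∃ x ∈ hypOf ε M b.1 c.1, (0 : Fin (r+1)) ∈ hypOf ε M a.1 x) ↔
      mk (b⁻¹ * c) (b⁻¹ * a) ∈ M := by
  constructor
  · rintro ⟨x, hx, h0⟩
    by_cases hx0 : x = 0
    · subst hx0
      rw [hyp_zero_right, Set.mem_singleton_iff] at h0
      exact absurd h0.symm a.2
    · obtain ⟨y, rfl⟩ : ∃ y : U r, y.1 = x := ⟨⟨x, hx0⟩, rfl⟩
      rw [hyp_zero_mem] at h0
      rw [hyp_mem, h0, ← mul_assoc ε, hε, one_mul] at hx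
      exact hx
  · intro h
    refine ⟨(ε * a).1, ?_, ?_⟩
    · rw [hyp_mem, ← mul_assoc ε, hε, one_mul]
      exact h
    · rw [hyp_zero_mem]

end ASS

/-- Piece ASS. -/
theorem t_ASS : S_ASS := by
  intro r _ ε M hε hG a b c
  by_cases ha : a = 0
  · subst ha
    rw [hyp_zero_left, Set.biUnion_singleton]
    have : ∀ x, hypOf ε M 0 x = {x} := hyp_zero_left ε M
    simp only [this, Set.biUnion_of_singleton]
  by_cases hb : b = 0
  · subst hb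
    rw [hyp_zero_left, hyp_zero_right, Set.biUnion_singleton, Set.biUnion_singleton]
  by_cases hc : c = 0
  · subst hc
    have : ∀ x, hypOf ε M x 0 = {x} := hyp_zero_right ε M
    rw [this b, Set.biUnion_singleton]
    simp only [this, Set.biUnion_of_singleton]
  obtain ⟨a, rfl⟩ : ∃ y : U r, y.1 = a := ⟨⟨a, ha⟩, rfl⟩
  obtain ⟨b, rfl⟩ : ∃ y : U r, y.1 = b := ⟨⟨b, hb⟩, rfl⟩
  obtain ⟨c, rfl⟩ : ∃ y : U r, y.1 = c := ⟨⟨c, hc⟩, rfl⟩
  ext d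
  simp only [Set.mem_iUnion, exists_prop]
  by_cases hd : d = 0
  · subst hd
    rw [ASS.zero_left ε M hε, ASS.zero_right ε M hε]
    have e : mk (a⁻¹ * b) (a⁻¹ * c) = mk (b⁻¹ * c) (b⁻¹ * a) := by
      rw [mk_inv, mk_swap]
      congr 1
      · rw [mul_inv_rev, inv_inv]
        group
      · rw [mul_inv_rev, inv_inv]
    rw [e]
  · obtain ⟨d, rfl⟩ : ∃ y : U r, y.1 = d := ⟨⟨d, hd⟩, rfl⟩
    constructor
    · intro _
      obtain ⟨x, h1, h2⟩ := ASS.right_mem ε M hG a b c d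
      exact ⟨x.1, h1, h2⟩
    · intro _
      obtain ⟨x, h1, h2⟩ := ASS.left_mem ε M hG a b c d
      exact ⟨x.1, h1, h2⟩

end Pool.Agent.K6.H55.HQ
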