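import Pool.Agent.K6.H55.HQ.Stm

/-!
# Piece AUT (helper69)

A finite abelian group with `n` elements has at most `n ^ log₂ n` automorphisms.
-/

set_option autoImplicit false

namespace Pool.Agent.K6.H55.HQ

namespace AUT

theorem gens (A : Type) [CommGroup A] [Finite A] :
    ∃ S : Finset A, Subgroup.closure (S : Set A) = ⊤ ∧ 2 ^ S.card ≤ Nat.card A := by
  classical
  have := Fintype.ofFinite A
  obtain ⟨S, hS, hmax⟩ := Finset.exists_max_image
    ((Finset.univ : Finset (Finset A)).filter
      (fun S : Finset A => 2 ^ S.card ≤ Nat.card (Subgroup.closure (S : Set A)))) Finset.card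
    ⟨∅, by simp⟩
  rw [Finset.mem_filter] at hS
  have htop : Subgroup.closure (S : Set A) = ⊤ := by
    by_contra hne
    have hex : ∃ a, a ∉ Subgroup.closure (S : Set A) := by
      by_contra h'
      push Not at h'
      exact hne ((Subgroup.eq_top_iff' _).2 h')
    obtain ⟨a, ha⟩ := hex
    have haS : a ∉ S := fun h => ha (Subgroup.subset_closure h)
    have hle : Subgroup.closure (S : Set A) ≤ Subgroup.closure ((insert a S : Finset A) : Set A) :=
      Subgroup.closure_mono (by rw [Finset.coe_insert]; exact Set.subset_insert _ _)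
    have hmem : a ∈ Subgroup.closure ((insert a S : Finset A) : Set A) :=
      Subgroup.subset_closure (by rw [Finset.coe_insert]; exact Set.mem_insert _ _)
    obtain ⟨m, hm⟩ := Subgroup.card_dvd_of_le hle
    have hpos : 0 < Nat.card (Subgroup.closure ((insert a S : Finset A) : Set A)) := Nat.card_pos
    have hm0 : m ≠ 0 := by
      rintro rfl
      rw [mul_zero] at hm
      omega
    have hm1 : m ≠ 1 := by
      rintro rfl
      rw [mul_one] at hm
      have := Subgroup.eq_of_le_of_card_ge hle hm.le
      rw [this] at ha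
      exact ha hmem
    have hin : (insert a S) ∈ ((Finset.univ : Finset (Finset A)).filter
        (fun S : Finset A => 2 ^ S.card ≤ Nat.card (Subgroup.closure (S : Set A)))) := by
      rw [Finset.mem_filter]
      refine ⟨Finset.mem_univ _, ?_⟩
      rw [Finset.card_insert_of_notMem haS, hm, pow_succ]
      exact Nat.mul_le_mul hS.2 (by omega)
    have := hmax _ hin
    rw [Finset.card_insert_of_notMem haS] at this
    omega
  refine ⟨S, htop, ?_⟩
  have h := hS.2
  rw [htop] at h
  simpa using h

end AUT

theorem t_AUT : S_AUT := by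
  intro A _ _
  classical
  obtain ⟨S, hS, hc⟩ := AUT.gens A
  have h1 : Nat.card (A ≃* A) ≤ Nat.card (S → A) := by
    apply Nat.card_le_card_of_injective (fun φ : A ≃* A => fun s : S => φ s.1)
    intro φ ψ h
    have h2 : φ.toMonoidHom = ψ.toMonoidHom :=
      MonoidHom.eq_of_eqOn_dense hS (fun s hs => congrFun h ⟨s, hs⟩)
    ext x
    exact DFunLike.congr_fun h2 x
  have h3 : Nat.card (S → A) = Nat.card A ^ S.card := by
    rw [Nat.card_fun]
    simp
  rw [h3] at h1
  refine h1.trans (Nat.pow_le_pow_right Nat.card_pos ?_)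
  exact Nat.le_log_of_pow_le one_lt_two hc

end Pool.Agent.K6.H55.HQ
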