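import Pool.Agent.K6.H55.HQ.Stm

/-! Piece AVG (helper41). -/

set_option autoImplicit false

namespace Pool.Agent.K6.H55.HQ

open Classical in
theorem t_AVG : S_AVG := by
  intro K _ r E a ha hcov F
  by_cases hF : F.card = 0
  · exact ⟨0, ∅, Finset.empty_subset _, by simp [hF], by simp⟩
  have hFpos : 0 < F.card := Nat.pos_of_ne_zero hF
  by_contra hcon
  have hcon' : ∀ x : K, r * (F.filter (fun f => f + x ∈ E)).card < F.card := by
    intro x
    by_contra hx
    exact hcon ⟨x, F.filter (fun f => f + x ∈ E), Finset.filter_subset _ _, not_lt.mp hx,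
      fun f hf => (Finset.mem_filter.mp hf).2⟩
  have hr : 0 < r := by
    obtain ⟨i, -⟩ := hcov 0
    exact i.pos
  set n := (F.card - 1) / r with hn
  have hn1 : ∀ x : K, (F.filter (fun f => f + x ∈ E)).card ≤ n := by
    intro x
    rw [hn, Nat.le_div_iff_mul_le hr]
    have := hcon' x
    rw [mul_comm] at this
    omega
  have hn2 : r * n < F.card := by
    have : r * n ≤ F.card - 1 := by rw [hn]; exact Nat.mul_div_le _ _
    omega
  set T : Finset (Fin r → K) := Fintype.piFinset (fun _ => F) with hT
  have hTcard : T.card = F.card ^ r := by simp [hT]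
  set X : Fin r → (Fin r → K) → K := fun j g => (∑ i ∈ Finset.univ.erase j, a i * g i) / a j with hX
  set Tj : Fin r → Finset (Fin r → K) := fun j => T.filter (fun g => g j + X j g ∈ E) with hTj
  have hTsub : T ⊆ Finset.univ.biUnion Tj := by
    intro g hg
    obtain ⟨j, e, he, hz⟩ := hcov (∑ i, a i * g i)
    rw [Finset.mem_biUnion]
    refine ⟨j, Finset.mem_univ _, Finset.mem_filter.mpr ⟨hg, ?_⟩⟩
    have h1 : g j + X j g = e := by
      rw [← Finset.add_sum_erase _ _ (Finset.mem_univ j)] at hz
      have h2 : (a j * g j + ∑ i ∈ Finset.univ.erase j, a i * g i) / a j = e := by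
        rw [hz, mul_div_cancel_left₀ _ (ha j)]
      rw [← h2, add_div, mul_div_cancel_left₀ _ (ha j)]
    rw [h1]
    exact he
  have hTjcard : ∀ j, (Tj j).card ≤ n * F.card ^ (r - 1) := by
    intro j
    have h1 : (Tj j).card ≤ n * ((Tj j).image (fun g => Function.update g j 0)).card := by
      apply Finset.card_le_mul_card_image
      intro h _
      have h2 : ((Tj j).filter (fun g => Function.update g j 0 = h)).card ≤
          (F.filter (fun f => f + X j h ∈ E)).card := by
        apply Finset.card_le_card_of_injOn (fun g => g j)
        · intro g hg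
          have hg1 := (Finset.mem_filter.mp hg).1
          have hg2 := (Finset.mem_filter.mp hg).2
          have hg3 := Finset.mem_filter.mp hg1
          have hg4 : g j ∈ F := (Fintype.mem_piFinset.mp hg3.1) j
          have hXe : X j g = X j h := by
            simp only [hX]
            congr 1
            refine Finset.sum_congr rfl fun i hi => ?_
            rw [← hg2, Function.update_of_ne (Finset.ne_of_mem_erase hi)]
          refine Finset.mem_coe.mpr (Finset.mem_filter.mpr ⟨hg4, ?_⟩)
          have := hg3.2
          rw [hXe] at this
          exact this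
        · intro g hg g' hg' he
          have hg2 := (Finset.mem_filter.mp hg).2
          have hg2' := (Finset.mem_filter.mp hg').2
          funext i
          by_cases hi : i = j
          · rw [hi]; exact he
          · have e1 := congrFun hg2 i
            have e2 := congrFun hg2' i
            rw [Function.update_of_ne hi] at e1 e2
            rw [e1, e2]
      exact h2.trans (hn1 _)
    refine h1.trans (Nat.mul_le_mul_left _ ?_)
    have h3 : ((Tj j).image (fun g => Function.update g j 0)) ⊆
        Fintype.piFinset (fun i => if i = j then {(0 : K)} else F) := by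
      intro h hh
      obtain ⟨g, hg, rfl⟩ := Finset.mem_image.mp hh
      rw [Fintype.mem_piFinset]
      intro i
      by_cases hi : i = j
      · simp [hi]
      · rw [Function.update_of_ne hi, if_neg hi]
        exact (Fintype.mem_piFinset.mp (Finset.mem_filter.mp hg).1) i
    refine (Finset.card_le_card h3).trans ?_
    rw [Fintype.card_piFinset]
    have h4 : ∀ i, (if i = j then {(0 : K)} else F).card = if i = j then 1 else F.card := by
      intro i
      by_cases hi : i = j
      · simp [hi]
      · simp [hi]
    simp only [h4]
    rw [← Finset.mul_prod_erase _ _ (Finset.mem_univ j), if_pos rfl, one_mul]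
    rw [Finset.prod_congr rfl (g := fun _ => F.card)
      (fun i hi => if_neg (Finset.ne_of_mem_erase hi))]
    simp
  have h5 : F.card ^ r ≤ r * (n * F.card ^ (r - 1)) := by
    rw [← hTcard]
    refine (Finset.card_le_card hTsub).trans ?_
    refine Finset.card_biUnion_le.trans ?_
    refine (Finset.sum_le_sum (fun j _ => hTjcard j)).trans ?_
    simp
  have h6 : F.card ^ r = F.card * F.card ^ (r - 1) := by
    rw [← pow_succ', Nat.sub_add_cancel hr]
  rw [h6, ← mul_assoc] at h5
  have h7 : F.card ≤ r * n := Nat.le_of_mul_le_mul_right h5 (pow_pos hFpos _)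
  omega

end Pool.Agent.K6.H55.HQ
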