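import Pool.Agent.K6.H55.HQ.Stm

/-!
# Piece AXO (helper93, for helper55)

The hyperaddition given by a good set of orbits satisfies all the axioms of hyperfields.
-/

set_option autoImplicit false

namespace Pool.Agent.K6.H55.HQ

namespace AXO

theorem cases0 {r : ℕ} (a : Fin (r+1)) : a = 0 ∨ ∃ a' : U r, a = a'.1 := by
  by_cases h : a = 0
  · exact Or.inl h
  · exact Or.inr ⟨⟨a, h⟩, rfl⟩

variable {r : ℕ} [CommGroup (U r)] (ε : U r) (M : Set (Orb (U r)))

theorem nonempty (hM : Good M) (a b : Fin (r+1)) : (hypOf ε M a b).Nonempty := by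
  rcases cases0 a with rfl | ⟨a, rfl⟩
  · rw [hyp_zero_left]
    exact Set.singleton_nonempty _
  rcases cases0 b with rfl | ⟨b, rfl⟩
  · rw [hyp_zero_right]
    exact Set.singleton_nonempty _
  obtain ⟨w, hw, -⟩ := hM (a⁻¹ * b) (a⁻¹ * b) 1
  refine ⟨(ε⁻¹ * (a * w)).1, ?_⟩
  rw [hyp_mem]
  have e1 : a⁻¹ * (ε * (ε⁻¹ * (a * w))) = w := by group
  rw [e1]
  exact hw

theorem symm_sub (hε : ε * ε = 1) (a b c : Fin (r+1)) (h : c ∈ hypOf ε M a b) :
    c ∈ hypOf ε M b a := by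
  rcases cases0 a with rfl | ⟨a, rfl⟩
  · rw [hyp_zero_left] at h
    rw [hyp_zero_right]
    exact h
  rcases cases0 b with rfl | ⟨b, rfl⟩
  · rw [hyp_zero_right] at h
    rw [hyp_zero_left]
    exact h
  rcases cases0 c with rfl | ⟨c, rfl⟩
  · rw [hyp_zero_mem] at h ⊢
    rw [h, ← mul_assoc, hε, one_mul]
  · rw [hyp_mem] at h ⊢
    rw [mk_inv] at h
    have e1 : (a⁻¹ * b)⁻¹ = b⁻¹ * a := by group
    have e2 : b⁻¹ * a * (a⁻¹ * (ε * c)) = b⁻¹ * (ε * c) := by group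
    rw [e1, e2] at h
    exact h

theorem symm (hε : ε * ε = 1) (a b : Fin (r+1)) : hypOf ε M a b = hypOf ε M b a :=
  Set.Subset.antisymm (fun c h => symm_sub ε M hε a b c h) (fun c h => symm_sub ε M hε b a c h)

theorem neg (a : Fin (r+1)) : ∃! b, (0 : Fin (r+1)) ∈ hypOf ε M a b := by
  rcases cases0 a with rfl | ⟨a, rfl⟩
  · refine ⟨0, ?_, fun b hb => ?_⟩
    · show (0 : Fin (r+1)) ∈ hypOf ε M 0 0
      rw [hyp_zero_left]
      exact Set.mem_singleton _
    · have hb' : (0 : Fin (r+1)) ∈ hypOf ε M 0 b := hb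
      rw [hyp_zero_left] at hb'
      exact (Set.mem_singleton_iff.mp hb').symm
  · refine ⟨(ε * a).1, ?_, fun b hb => ?_⟩
    · show (0 : Fin (r+1)) ∈ hypOf ε M a.1 (ε * a).1
      rw [hyp_zero_mem]
    · have hb' : (0 : Fin (r+1)) ∈ hypOf ε M a.1 b := hb
      rcases cases0 b with rfl | ⟨b, rfl⟩
      · rw [hyp_zero_right] at hb'
        exact absurd (Set.mem_singleton_iff.mp hb').symm a.2
      · rw [hyp_zero_mem] at hb'
        rw [hb']

theorem rever (hε : ε * ε = 1) (a b c d : Fin (r+1)) (h1 : a ∈ hypOf ε M b c)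
    (h2 : (0 : Fin (r+1)) ∈ hypOf ε M b d) : c ∈ hypOf ε M a d := by
  rcases cases0 b with rfl | ⟨b, rfl⟩
  · rw [hyp_zero_left] at h1 h2
    have e1 := Set.mem_singleton_iff.mp h1
    have e2 := Set.mem_singleton_iff.mp h2
    rw [← e2, hyp_zero_right, e1]
    exact Set.mem_singleton _
  rcases cases0 c with rfl | ⟨c, rfl⟩
  · rw [hyp_zero_right] at h1
    rw [Set.mem_singleton_iff.mp h1]
    exact h2
  rcases cases0 d with rfl | ⟨d, rfl⟩
  · rw [hyp_zero_right] at h2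
    exact absurd (Set.mem_singleton_iff.mp h2).symm b.2
  rw [hyp_zero_mem] at h2
  rcases cases0 a with rfl | ⟨a, rfl⟩
  · rw [hyp_zero_mem] at h1
    rw [hyp_zero_left, h1, h2]
    exact Set.mem_singleton _
  · rw [hyp_mem] at h1 ⊢
    rw [mk_swap, mk_inv] at h1
    have hi : ε⁻¹ = ε := by
      rw [inv_eq_iff_mul_eq_one]
      exact hε
    have e1 : (b⁻¹ * (ε * a))⁻¹ = a⁻¹ * d := by
      rw [h2, mul_inv, mul_inv, hi, inv_inv, mul_comm, mul_comm ε, mul_assoc]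
    have e2 : a⁻¹ * d * (b⁻¹ * c) = a⁻¹ * (ε * c) := by
      rw [h2, mul_assoc, mul_assoc, mul_inv_cancel_left]
    rw [e1, e2] at h1
    exact h1

theorem distr (m : Fin (r+1) → Fin (r+1) → Fin (r+1))
    (hm : ∀ a b : U r, (a * b).1 = m a.1 b.1) (h0 : ∀ a, m 0 a = 0) (h0' : ∀ a, m a 0 = 0)
    (hM : Good M) (a b c : Fin (r+1)) :
    (fun x => m a x) '' hypOf ε M b c = hypOf ε M (m a b) (m a c) := by
  rcases cases0 a with rfl | ⟨a, rfl⟩
  · rw [h0, h0, hyp_zero_left]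
    ext z
    simp only [Set.mem_image, Set.mem_singleton_iff]
    constructor
    · rintro ⟨x, -, rfl⟩
      exact h0 x
    · rintro rfl
      obtain ⟨x, hx⟩ := nonempty ε M hM b c
      exact ⟨x, hx, h0 x⟩
  rcases cases0 b with rfl | ⟨b, rfl⟩
  · rw [h0', hyp_zero_left, hyp_zero_left, Set.image_singleton]
  rcases cases0 c with rfl | ⟨c, rfl⟩
  · rw [h0', hyp_zero_right, hyp_zero_right, Set.image_singleton]
  have key : ∀ x : U r, x.1 ∈ hypOf ε M b.1 c.1 ↔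
      (a * x).1 ∈ hypOf ε M (a * b).1 (a * c).1 := by
    intro x
    rw [hyp_mem, hyp_mem]
    have e1 : (a * b)⁻¹ * (a * c) = b⁻¹ * c := by
      rw [mul_inv, mul_comm a⁻¹, mul_assoc, inv_mul_cancel_left]
    have e2 : (a * b)⁻¹ * (ε * (a * x)) = b⁻¹ * (ε * x) := by
      rw [mul_inv, mul_comm a⁻¹, mul_assoc, mul_left_comm ε a x, inv_mul_cancel_left]
    rw [e1, e2]
  have key0 : (0 : Fin (r+1)) ∈ hypOf ε M b.1 c.1 ↔
      (0 : Fin (r+1)) ∈ hypOf ε M (a * b).1 (a * c).1 := by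
    rw [hyp_zero_mem, hyp_zero_mem, mul_left_comm ε a b, mul_right_inj]
  rw [← hm a b, ← hm a c]
  ext z
  simp only [Set.mem_image]
  constructor
  · rintro ⟨x, hx, rfl⟩
    rcases cases0 x with rfl | ⟨x, rfl⟩
    · rw [h0']
      exact key0.mp hx
    · rw [← hm a x]
      exact (key x).mp hx
  · intro hz
    rcases cases0 z with rfl | ⟨z, rfl⟩
    · exact ⟨0, key0.mpr hz, h0' _⟩
    · refine ⟨(a⁻¹ * z).1, (key _).mpr ?_, ?_⟩
      · rw [mul_inv_cancel_left]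
        exact hz
      · rw [← hm, mul_inv_cancel_left]

end AXO

/-- All the axioms of hyperfields for `hypOf`. -/
theorem t_AXO (h : S_ASS) : S_AXO := by
  intro r m _ hm hmul ε M hε hM
  obtain ⟨m1, m2, m3, m4, m5, m6⟩ := hm
  refine ⟨m1, m2, m3, m4, m5, m6, AXO.nonempty ε M hM, AXO.symm ε M hε, h r ε M hε hM,
    hyp_zero_left ε M, AXO.neg ε M, AXO.rever ε M hε, ?_⟩
  exact AXO.distr ε M m hmul m4 (fun a => by rw [m2, m4]) hM

end Pool.Agent.K6.H55.HQ
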