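import Pool.Agent.K6.H55.HQ.Stm

set_option autoImplicit false

/-! # Few sets of orbits are bad for a given triple -/

namespace Pool.Agent.K6.H55.HQ

open Finset

theorem BAD.mono_card {Q : Type} [Finite Q] {s t : Set (Set Q)} (h : s ⊆ t) :
    s.ncard ≤ t.ncard :=
  Set.ncard_le_ncard h (Set.toFinite t)

theorem t_BAD (h1 : S_GRD) (h2 : S_CNTP) (h3 : S_SIX) : S_BAD := by
  intro A _ _ x y t
  obtain ⟨T, hT, hTd⟩ := h1 (Orb A) A (fun w => mk x w) (fun w => mk y (t * w))
    (fun q => h3 A x q) (fun q => by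
      refine le_trans ?_ (h3 A y q)
      refine Set.ncard_le_ncard_of_injOn (fun w => t * w) (fun w hw => hw) ?_ (Set.toFinite _)
      intro a _ b _ hab
      exact mul_left_cancel hab)
  obtain ⟨T₀, hT₀, hc⟩ := Finset.exists_subset_card_eq hT
  have h4 := h2 (Orb A) A (fun w => mk x w) (fun w => mk y (t * w)) T₀
    (fun s hs u hu hsu => hTd s (hT₀ hs) u (hT₀ hu) hsu)
  rw [hc] at h4
  refine le_trans (Nat.mul_le_mul_right _ ?_) h4
  exact BAD.mono_card fun M hM w _ => hM w

end Pool.Agent.K6.H55.HQ
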