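import Mathlib

/-!
# MP_7ea459_al: the proportion of quotient hyperfields among finite hyperfields tends to 0

Paper proof.  A hyperfield with multiplicative group `A` of order `r` and `-1 = ε` is the same as a
set `N` of orbits of the permutations on the triples `[a : b : c]` of `A` up to scaling
(`c ∈ a ⊞ b` iff `[a : b : ε c] ∈ N`) with associativity.  Most `N` are associative (all the sets
`(a ⊞ b) ∩ (c ⊞ d)` are nonempty); on the other hand in a quotient `K / G` with `K` infinite or large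
we have `1 ⊞ (-1) = K / G`, since `G - G = K`, and this fixes at least `r / 6` orbits.
-/

set_option autoImplicit false

namespace Pool.Agent.K6.H55.HQ

/-- labelled structures with `r + 1` elements: multiplication and hyperaddition -/
abbrev Str (r : ℕ) : Type :=
  (Fin (r+1) → Fin (r+1) → Fin (r+1)) × (Fin (r+1) → Fin (r+1) → Set (Fin (r+1)))

/-- hyperaddition tables -/
abbrev Hyp (r : ℕ) : Type := Fin (r+1) → Fin (r+1) → Set (Fin (r+1))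

/-- hyperfields -/
def IsHF {r : ℕ} (p : Str r) : Prop :=
  (∃ u : Fin (r+1), u ≠ 0 ∧ ∀ a, p.1 u a = a) ∧
  (∀ a b, p.1 a b = p.1 b a) ∧
  (∀ a b c, p.1 (p.1 a b) c = p.1 a (p.1 b c)) ∧
  (∀ a, p.1 0 a = 0) ∧
  (∀ a b, a ≠ 0 → b ≠ 0 → p.1 a b ≠ 0) ∧
  (∀ a, a ≠ 0 → ∃ b, ∀ c, p.1 (p.1 a b) c = c) ∧
  (∀ a b, (p.2 a b).Nonempty) ∧
  (∀ a b, p.2 a b = p.2 b a) ∧
  (∀ a b c, (⋃ x ∈ p.2 a b, p.2 x c) = ⋃ x ∈ p.2 b c, p.2 a x) ∧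
  (∀ a, p.2 0 a = {a}) ∧
  (∀ a, ∃! b, (0 : Fin (r+1)) ∈ p.2 a b) ∧
  (∀ a b c d, a ∈ p.2 b c → (0 : Fin (r+1)) ∈ p.2 b d → c ∈ p.2 a d) ∧
  (∀ a b c, (fun x => p.1 a x) '' p.2 b c = p.2 (p.1 a b) (p.1 a c))

/-- the conditions on the multiplication -/
def MOK {r : ℕ} (m : Fin (r+1) → Fin (r+1) → Fin (r+1)) : Prop :=
  (∃ u : Fin (r+1), u ≠ 0 ∧ ∀ a, m u a = a) ∧
  (∀ a b, m a b = m b a) ∧
  (∀ a b c, m (m a b) c = m a (m b c)) ∧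
  (∀ a, m 0 a = 0) ∧
  (∀ a b, a ≠ 0 → b ≠ 0 → m a b ≠ 0) ∧
  (∀ a, a ≠ 0 → ∃ b, ∀ c, m (m a b) c = c)

/-- `p` is the quotient hyperfield `K / G`, with the quotient map `f` -/
def Rep {r : ℕ} (p : Str r) (K : Type) [Field K] (G : Subgroup Kˣ) (f : K → Fin (r+1)) : Prop :=
  Function.Surjective f ∧ f 0 = 0 ∧
  (∀ x y : K, f x = f y ↔ ∃ g ∈ G, y = x * (g : K)) ∧
  (∀ x y : K, f (x * y) = p.1 (f x) (f y)) ∧
  (∀ x y : K, p.2 (f x) (f y) = {z | ∃ g ∈ G, ∃ h ∈ G, z = f (x * (g : K) + y * (h : K))})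

/-- quotient hyperfields -/
def IsQ {r : ℕ} (p : Str r) : Prop :=
  ∃ (K : Type) (_ : Field K), ∃ G : Subgroup Kˣ, ∃ f : K → Fin (r+1), Rep p K G f

/-- isomorphism -/
def Iso {r : ℕ} (p q : Str r) : Prop :=
  ∃ e : Fin (r+1) ≃ Fin (r+1), ∀ a b, e (p.1 a b) = q.1 (e a) (e b) ∧ e '' p.2 a b = q.2 (e a) (e b)

/-- isomorphism which fixes `0` -/
def Iso0 {r : ℕ} (p q : Str r) : Prop :=
  ∃ e : Fin (r+1) ≃ Fin (r+1), e 0 = 0 ∧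
    ∀ a b, e (p.1 a b) = q.1 (e a) (e b) ∧ e '' p.2 a b = q.2 (e a) (e b)

/-- the isomorphism classes of the structures with the property `P` -/
def classes {r : ℕ} (P : Str r → Prop) : Set (Set (Str r)) :=
  {C | ∃ p, P p ∧ C = {q | P q ∧ Iso p q}}

/-- `1 ⊞ ε` is everything for some `ε` -/
def Full {r : ℕ} (p : Str r) : Prop :=
  ∃ u ε : Fin (r+1), u ≠ 0 ∧ (∀ a, p.1 u a = a) ∧ ∀ c, c ∈ p.2 u ε

/-- the nonzero elements -/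
abbrev U (r : ℕ) : Type := {a : Fin (r+1) // a ≠ 0}

section orbits

variable {A : Type} [CommGroup A]

/-- the triple `(1, x, y)` -/
def trip (x : A × A) : Fin 3 → A := ![1, x.1, x.2]

/-- equality of the triples `[1 : x : y]` up to scaling and permutation -/
def Rel (x y : A × A) : Prop :=
  ∃ (σ : Equiv.Perm (Fin 3)) (t : A), ∀ i, trip y i = t * trip x (σ i)

theorem rel_eqv : Equivalence (Rel (A := A)) := by
  refine ⟨fun x => ⟨1, 1, fun i => by simp⟩, ?_, ?_⟩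
  · rintro x y ⟨σ, t, h⟩
    refine ⟨σ⁻¹, t⁻¹, fun i => ?_⟩
    have h1 := h (σ⁻¹ i)
    rw [h1, inv_mul_cancel_left]
    simp
  · rintro x y z ⟨σ, t, h⟩ ⟨σ', t', h'⟩
    refine ⟨σ * σ', t' * t, fun i => ?_⟩
    rw [h' i, h (σ' i), mul_assoc, Equiv.Perm.mul_apply]

/-- the orbits of the triples -/
def oset (A : Type) [CommGroup A] : Setoid (A × A) := ⟨Rel, rel_eqv⟩

/-- the set of the orbits of the triples -/
abbrev Orb (A : Type) [CommGroup A] : Type := Quotient (oset A)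

/-- the orbit of `[1 : x : y]` -/
def mk (x y : A) : Orb A := Quotient.mk (oset A) (x, y)

theorem mk_eq_iff (x y x' y' : A) : mk x y = mk x' y' ↔ Rel (x, y) (x', y') :=
  ⟨fun h => Quotient.exact h, fun h => Quotient.sound h⟩

theorem mk_swap (x y : A) : mk x y = mk y x := by
  rw [mk_eq_iff]
  refine ⟨Equiv.swap 1 2, 1, fun i => ?_⟩
  fin_cases i
  · simp [trip, Equiv.swap_apply_of_ne_of_ne]
  · simp [trip]
  · simp [trip]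

theorem mk_inv (x y : A) : mk x y = mk x⁻¹ (x⁻¹ * y) := by
  rw [mk_eq_iff]
  refine ⟨Equiv.swap 0 1, x⁻¹, fun i => ?_⟩
  fin_cases i
  · simp [trip]
  · simp [trip]
  · simp [trip, Equiv.swap_apply_of_ne_of_ne]

/-- every `x S_a` meets every `S_b` -/
def Good (M : Set (Orb A)) : Prop := ∀ x y t : A, ∃ w : A, mk x w ∈ M ∧ mk y (t * w) ∈ M

end orbits

/-- the hyperaddition given by `ε` and the set `M` of orbits:
`c ∈ a ⊞ b` iff `[a : b : ε c] ∈ M`, `0 ∈ a ⊞ b` iff `b = ε a` -/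
def hypOf {r : ℕ} [CommGroup (U r)] (ε : U r) (M : Set (Orb (U r))) : Hyp r := fun a b =>
  {c | (a = 0 ∧ c = b) ∨ (b = 0 ∧ c = a) ∨
    ∃ (ha : a ≠ 0) (hb : b ≠ 0), ((c = 0 ∧ (⟨b, hb⟩ : U r) = ε * ⟨a, ha⟩) ∨
      ∃ hc : c ≠ 0, mk ((⟨a, ha⟩ : U r)⁻¹ * ⟨b, hb⟩) ((⟨a, ha⟩ : U r)⁻¹ * (ε * ⟨c, hc⟩)) ∈ M)}

section hyp

variable {r : ℕ} [CommGroup (U r)] (ε : U r) (M : Set (Orb (U r)))

theorem hyp_mem (a b c : U r) :
    c.1 ∈ hypOf ε M a.1 b.1 ↔ mk (a⁻¹ * b) (a⁻¹ * (ε * c)) ∈ M := by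
  have ha := a.2
  have hb := b.2
  have hc := c.2
  simp [hypOf, ha, hb, hc]

theorem hyp_zero_mem (a b : U r) : (0 : Fin (r+1)) ∈ hypOf ε M a.1 b.1 ↔ b = ε * a := by
  have ha := a.2
  have hb := b.2
  simp only [hypOf, Set.mem_ofPred_eq]
  constructor
  · rintro (⟨h, -⟩ | ⟨h, -⟩ | ⟨_, _, ⟨-, h⟩ | ⟨h, -⟩⟩)
    · exact absurd h ha
    · exact absurd h hb
    · exact h
    · exact absurd rfl h
  · intro h
    exact Or.inr (Or.inr ⟨ha, hb, Or.inl ⟨trivial, h⟩⟩)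

theorem hyp_zero_left (b : Fin (r+1)) : hypOf ε M 0 b = {b} := by
  ext c
  simp only [hypOf, Set.mem_ofPred_eq, Set.mem_singleton_iff]
  constructor
  · rintro (⟨-, h⟩ | ⟨h1, h2⟩ | ⟨h, -⟩)
    · exact h
    · rw [h1, h2]
    · exact absurd rfl h
  · intro h
    exact Or.inl ⟨trivial, h⟩

theorem hyp_zero_right (a : Fin (r+1)) : hypOf ε M a 0 = {a} := by
  ext c
  simp only [hypOf, Set.mem_ofPred_eq, Set.mem_singleton_iff]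
  constructor
  · rintro (⟨h1, h2⟩ | ⟨-, h⟩ | ⟨-, h, -⟩)
    · rw [h1, h2]
    · exact h
    · exact absurd rfl h
  · intro h
    exact Or.inr (Or.inl ⟨trivial, h⟩)

end hyp

/-! ## The pieces -/

/-- SIX -/
def S_SIX : Prop := ∀ (A : Type) [CommGroup A] [Finite A] (x : A) (q : Orb A),
  {y : A | mk x y = q}.ncard ≤ 6

/-- ORB -/
def S_ORB : Prop := ∀ (A : Type) [CommGroup A] [Finite A],
  Nat.card A ^ 2 ≤ 6 * Nat.card (Orb A)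

/-- CA -/
def S_CA : Prop := ∀ (Q : Type) [Finite Q] (P : Finset Q),
  {M : Set Q | ∀ q ∈ P, q ∈ M}.ncard * 2 ^ P.card ≤ 2 ^ Nat.card Q

/-- GRD -/
def S_GRD : Prop := ∀ (Q W : Type) [Finite W] (f g : W → Q),
  (∀ q, {w | f w = q}.ncard ≤ 6) → (∀ q, {w | g w = q}.ncard ≤ 6) →
  ∃ T : Finset W, Nat.card W / 25 ≤ T.card ∧ ∀ s ∈ T, ∀ t ∈ T, s ≠ t →
    f s ≠ f t ∧ f s ≠ g t ∧ g s ≠ f t ∧ g s ≠ g t

/-- CNTP -/
def S_CNTP : Prop := ∀ (Q W : Type) [Finite Q] (f g : W → Q) (T : Finset W),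
  (∀ s ∈ T, ∀ t ∈ T, s ≠ t → f s ≠ f t ∧ f s ≠ g t ∧ g s ≠ f t ∧ g s ≠ g t) →
  {M : Set Q | ∀ w ∈ T, ¬ (f w ∈ M ∧ g w ∈ M)}.ncard * 4 ^ T.card ≤ 3 ^ T.card * 2 ^ Nat.card Q

/-- BAD (h1 : S_GRD) (h2 : S_CNTP) (h3 : S_SIX) -/
def S_BAD : Prop := ∀ (A : Type) [CommGroup A] [Finite A] (x y t : A),
  {M : Set (Orb A) | ∀ w, ¬ (mk x w ∈ M ∧ mk y (t * w) ∈ M)}.ncard * 4 ^ (Nat.card A / 25) ≤
    3 ^ (Nat.card A / 25) * 2 ^ Nat.card (Orb A)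

/-- GOOD (h : S_BAD) -/
def S_GOOD : Prop := ∃ r₀ : ℕ, ∀ (A : Type) [CommGroup A] [Finite A], r₀ ≤ Nat.card A →
  2 ^ Nat.card (Orb A) ≤ 2 * {M : Set (Orb A) | Good M}.ncard

/-- FULLN (h1 : S_CA) (h2 : S_SIX) -/
def S_FULLN : Prop := ∀ (A : Type) [CommGroup A] [Finite A] (e : A),
  {M : Set (Orb A) | ∀ y, mk e y ∈ M}.ncard * 2 ^ (Nat.card A / 6) ≤ 2 ^ Nat.card (Orb A)

/-- GRP -/
def S_GRP : Prop := ∀ (r : ℕ) (m : Fin (r+1) → Fin (r+1) → Fin (r+1)), MOK m →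
  ∃ _ : CommGroup (U r), ∀ a b : U r, (a * b).1 = m a.1 b.1

/-- ASS -/
def S_ASS : Prop := ∀ (r : ℕ) [CommGroup (U r)] (ε : U r) (M : Set (Orb (U r))),
  ε * ε = 1 → Good M →
  ∀ a b c, (⋃ x ∈ hypOf ε M a b, hypOf ε M x c) = ⋃ x ∈ hypOf ε M b c, hypOf ε M a x

/-- AXO (h : S_ASS) -/
def S_AXO : Prop := ∀ (r : ℕ) (m : Fin (r+1) → Fin (r+1) → Fin (r+1)) [CommGroup (U r)],
  MOK m → (∀ a b : U r, (a * b).1 = m a.1 b.1) → ∀ (ε : U r) (M : Set (Orb (U r))),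
  ε * ε = 1 → Good M → IsHF (m, hypOf ε M)

/-- MTON (h : S_AXO) -/
def S_MTON : Prop := ∀ (r : ℕ) (m : Fin (r+1) → Fin (r+1) → Fin (r+1)) [CommGroup (U r)],
  MOK m → (∀ a b : U r, (a * b).1 = m a.1 b.1) → ∀ ε : U r, ε * ε = 1 →
  {M : Set (Orb (U r)) | Good M}.ncard ≤
    {h : Hyp r | IsHF (m, h) ∧ (0 : Fin (r+1)) ∈ h (1 : U r).1 ε.1}.ncard

/-- NTOM -/
def S_NTOM : Prop := ∀ (r : ℕ) (m : Fin (r+1) → Fin (r+1) → Fin (r+1)) [CommGroup (U r)],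
  MOK m → (∀ a b : U r, (a * b).1 = m a.1 b.1) → ∀ ε : U r,
  {h : Hyp r | IsHF (m, h) ∧ ∀ c, c ∈ h (1 : U r).1 ε.1}.ncard ≤
    {M : Set (Orb (U r)) | ∀ y, mk ε y ∈ M}.ncard

/-- FIB (h1 : S_GRP) (h2 : S_MTON) (h3 : S_NTOM) (h4 : S_GOOD) (h5 : S_FULLN) -/
def S_FIB : Prop := ∃ r₀ : ℕ, ∀ r : ℕ, r₀ ≤ r →
  {p : Str r | IsHF p ∧ Full p}.ncard * 2 ^ (r / 6) ≤ 2 * {p : Str r | IsHF p}.ncard

/-- BIG (h1 : S_MTON) (h2 : S_GOOD) (h3 : S_ORB) -/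
def S_BIG : Prop := ∃ r₀ : ℕ, ∀ r : ℕ, r₀ ≤ r →
  2 ^ (r ^ 2 / 6) ≤ 2 * {p : Str r | IsHF p}.ncard

/-- ISO -/
def S_ISO : Prop := ∀ r : ℕ, Equivalence (Iso (r := r))

/-- LABA (h : S_ISO) -/
def S_LABA : Prop := ∀ r : ℕ,
  {p : Str r | IsHF p}.ncard ≤ (r + 1).factorial * (classes (IsHF (r := r))).ncard

/-- AUT -/
def S_AUT : Prop := ∀ (A : Type) [CommGroup A] [Finite A],
  Nat.card (A ≃* A) ≤ Nat.card A ^ Nat.log 2 (Nat.card A)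

/-- LABB (h1 : S_ISO) (h2 : S_GRP) (h3 : S_AUT) -/
def S_LABB : Prop := ∀ (r : ℕ) (P : Str r → Prop), 1 ≤ r → (∀ p, P p → IsHF p) →
  (∀ p q, P p → Iso0 p q → P q) →
  (classes P).ncard * r.factorial ≤ r ^ Nat.log 2 r * {p : Str r | P p}.ncard

/-- INV -/
def S_INV : Prop := ∀ (r : ℕ) (p q : Str r), Iso0 p q →
  (IsHF p → IsHF q) ∧ (Full p → Full q)

/-- AVG -/
def S_AVG : Prop := ∀ (K : Type) [Field K] (r : ℕ) (E : Set K) (a : Fin r → K),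
  (∀ i, a i ≠ 0) → (∀ z : K, ∃ i, ∃ e ∈ E, z = a i * e) →
  ∀ F : Finset K, ∃ (x : K) (F' : Finset K), F' ⊆ F ∧ F.card ≤ r * F'.card ∧
    ∀ f ∈ F', f + x ∈ E

/-- FLD (h : S_AVG) -/
def S_FLD : Prop := ∀ (K : Type) [Field K] (G : Subgroup Kˣ) (r : ℕ) (a : Fin r → Kˣ),
  (∀ z : Kˣ, ∃ i, ∃ g ∈ G, z = a i * g) →
  (∃ F : Finset K, (3 * r) ^ (r + 1) ≤ F.card) →
  ∀ b : K, ∃ g ∈ G, ∃ h ∈ G, b = (g : K) - (h : K)

/-- QL (h : S_FLD) -/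
def S_QL : Prop := ∀ (r : ℕ) (p : Str r) (K : Type) [Field K] (G : Subgroup Kˣ)
  (f : K → Fin (r+1)), Rep p K G f → (∃ F : Finset K, (3 * r) ^ (r + 1) ≤ F.card) → Full p

/-- QHF -/
def S_QHF : Prop := ∀ (r : ℕ) (p : Str r), IsQ p → IsHF p

/-- ISOF -/
def S_ISOF : Prop := ∀ (r : ℕ) (p p' : Str r) (K K' : Type) [Field K] [Field K'] [Finite K]
  [Finite K'] (G : Subgroup Kˣ) (G' : Subgroup K'ˣ) (f : K → Fin (r+1)) (f' : K' → Fin (r+1)),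
  Nat.card K = Nat.card K' → Rep p K G f → Rep p' K' G' f' → Iso p p'

/-- QS (h1 : S_ISOF) (h2 : S_ISO) -/
def S_QS : Prop := ∀ r X : ℕ,
  {C : Set (Str r) | ∃ p : Str r, (∃ (K : Type) (_ : Field K) (G : Subgroup Kˣ)
    (f : K → Fin (r+1)), Rep p K G f ∧ Finite K ∧ Nat.card K < X) ∧
    C = {q | IsQ q ∧ Iso p q}}.ncard ≤ X

/-- ARIA -/
def S_ARIA : Prop := Filter.Tendsto
  (fun r : ℕ => ((2 * (r + 1) * r ^ Nat.log 2 r : ℕ) : ℝ) / 2 ^ (r / 6)) Filter.atTop (nhds 0)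

/-- ARIB -/
def S_ARIB : Prop := Filter.Tendsto
  (fun r : ℕ => (((3 * r) ^ (r + 1) * (2 * (r + 1).factorial) : ℕ) : ℝ) / 2 ^ (r ^ 2 / 6))
  Filter.atTop (nhds 0)

end Pool.Agent.K6.H55.HQ
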