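import Mathlib
import Pool.Agent.K6.H55.HQ.Stm

/-!
# Piece BIG: there are many hyperfields
-/

set_option autoImplicit false

namespace Pool.Agent.K6.H55.HQ

namespace BIG

lemma card_U (r : ℕ) : Nat.card (U r) = r := by
  rw [Nat.card_congr (finSuccAboveEquiv (0 : Fin (r + 1))).symm, Nat.card_eq_fintype_card,
    Fintype.card_fin]

/-- the multiplication given by a group structure of the nonzero elements -/
noncomputable def mul {r : ℕ} [CommGroup (U r)] (a b : Fin (r + 1)) : Fin (r + 1) :=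
  if ha : a = 0 then 0 else if hb : b = 0 then 0 else ((⟨a, ha⟩ : U r) * ⟨b, hb⟩).1

lemma mul_U {r : ℕ} [CommGroup (U r)] (a b : U r) : (a * b).1 = mul a.1 b.1 := by
  rw [mul, dif_neg a.2, dif_neg b.2]

lemma mul_zero' {r : ℕ} [CommGroup (U r)] (a : Fin (r + 1)) : mul a 0 = 0 := by
  unfold mul
  by_cases ha : a = 0
  · rw [dif_pos ha]
  · rw [dif_neg ha, dif_pos rfl]

lemma zero_mul' {r : ℕ} [CommGroup (U r)] (a : Fin (r + 1)) : mul 0 a = 0 := by
  rw [mul, dif_pos rfl]

lemma mok {r : ℕ} [CommGroup (U r)] : MOK (mul (r := r)) := by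
  have key : ∀ a : Fin (r + 1), a = 0 ∨ ∃ x : U r, a = x.1 := by
    intro a
    by_cases ha : a = 0
    · exact Or.inl ha
    · exact Or.inr ⟨⟨a, ha⟩, rfl⟩
  have hone : ∀ a : Fin (r + 1), mul (1 : U r).1 a = a := by
    intro a
    rcases key a with rfl | ⟨x, rfl⟩
    · exact mul_zero' _
    · rw [← mul_U, one_mul]
  refine ⟨⟨(1 : U r).1, (1 : U r).2, hone⟩, ?_, ?_, zero_mul', ?_, ?_⟩
  · intro a b
    rcases key a with rfl | ⟨x, rfl⟩
    · rw [zero_mul', mul_zero']
    · rcases key b with rfl | ⟨y, rfl⟩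
      · rw [zero_mul', mul_zero']
      · rw [← mul_U, ← mul_U, mul_comm]
  · intro a b c
    rcases key a with rfl | ⟨x, rfl⟩
    · rw [zero_mul', zero_mul', zero_mul']
    · rcases key b with rfl | ⟨y, rfl⟩
      · rw [mul_zero', zero_mul', mul_zero']
      · rcases key c with rfl | ⟨z, rfl⟩
        · rw [mul_zero', mul_zero', mul_zero']
        · rw [← mul_U, ← mul_U, ← mul_U, ← mul_U, mul_assoc]
  · intro a b ha hb
    rcases key a with rfl | ⟨x, rfl⟩
    · exact absurd rfl ha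
    · rcases key b with rfl | ⟨y, rfl⟩
      · exact absurd rfl hb
      · rw [← mul_U]
        exact (x * y).2
  · intro a ha
    rcases key a with rfl | ⟨x, rfl⟩
    · exact absurd rfl ha
    · refine ⟨(x⁻¹).1, fun c => ?_⟩
      rw [← mul_U, mul_inv_cancel, hone]

end BIG

open BIG in
theorem t_BIG (h1 : S_MTON) (h2 : S_GOOD) (h3 : S_ORB) : S_BIG := by
  obtain ⟨r₀, h2⟩ := h2
  refine ⟨max r₀ 1, fun r hr => ?_⟩
  have hr0 : r₀ ≤ r := (le_max_left _ _).trans hr
  have hr1 : 1 ≤ r := (le_max_right _ _).trans hr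
  have : NeZero r := ⟨by omega⟩
  let e : U r ≃ Multiplicative (ZMod r) := Nonempty.some (by
    have hc : Nat.card (U r) = Nat.card (Multiplicative (ZMod r)) := by
      rw [card_U, Nat.card_congr Multiplicative.toAdd, Nat.card_zmod]
    exact Finite.card_eq.1 hc)
  let _ : CommGroup (U r) := e.commGroup
  have hg := h2 (U r) (by rw [card_U]; exact hr0)
  have ho := h3 (U r)
  rw [card_U] at ho
  have hm := h1 r mul mok mul_U (1 : U r) (one_mul 1)
  have hle : {h : Hyp r | IsHF (mul, h) ∧ (0 : Fin (r+1)) ∈ h (1 : U r).1 (1 : U r).1}.ncard ≤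
      {p : Str r | IsHF p}.ncard := by
    refine Set.ncard_le_ncard_of_injOn (fun h : Hyp r => ((mul, h) : Str r)) ?_ ?_
      (Set.toFinite _)
    · intro h hh
      exact hh.1
    · intro h _ h' _ hhh
      exact (Prod.mk.inj hhh).2
  calc 2 ^ (r ^ 2 / 6) ≤ 2 ^ Nat.card (Orb (U r)) :=
        Nat.pow_le_pow_right (by norm_num) (by omega)
    _ ≤ 2 * {M : Set (Orb (U r)) | Good M}.ncard := hg
    _ ≤ 2 * {p : Str r | IsHF p}.ncard := Nat.mul_le_mul_left _ (hm.trans hle)

end Pool.Agent.K6.H55.HQ
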