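import Pool.Agent.K6.H55.HQ.Stm

/-!
# Sets containing a given finite set (helper66)
-/

set_option autoImplicit false

namespace Pool.Agent.K6.H55.HQ

theorem t_CA : S_CA := by
  classical
  intro Q _ P
  have h1 : ({M : Set Q | ∀ q ∈ P, q ∈ M} ×ˢ ((P.powerset : Finset (Finset Q)) :
      Set (Finset Q))).ncard = {M : Set Q | ∀ q ∈ P, q ∈ M}.ncard * 2 ^ P.card := by
    rw [Set.ncard_prod, Set.ncard_coe_finset, Finset.card_powerset]
  have h2 : (Set.univ : Set (Set Q)).ncard = 2 ^ Nat.card Q := by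
    haveI := Fintype.ofFinite Q
    rw [Set.ncard_univ, Nat.card_eq_fintype_card, Fintype.card_set, Nat.card_eq_fintype_card]
  rw [← h1, ← h2]
  refine Set.ncard_le_ncard_of_injOn (fun x => x.1 \ (x.2 : Set Q)) (fun a _ => Set.mem_univ _) ?_
    Set.finite_univ
  rintro ⟨M, T⟩ ⟨hM, hT⟩ ⟨M', T'⟩ ⟨hM', hT'⟩ h
  simp only [Finset.coe_powerset, Set.mem_preimage, Set.mem_powerset_iff, Finset.coe_subset,
    Set.mem_ofPred_eq] at hM hT hM' hT' h
  have hx : ∀ q, (q ∈ M ∧ q ∉ T) ↔ (q ∈ M' ∧ q ∉ T') := by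
    intro q
    have := Set.ext_iff.1 h q
    simpa using this
  have hTT : T = T' := by
    ext q
    constructor
    · intro hq
      by_contra hq'
      exact ((hx q).2 ⟨hM' q (hT hq), hq'⟩).2 hq
    · intro hq
      by_contra hq'
      exact ((hx q).1 ⟨hM q (hT' hq), hq'⟩).2 hq
  subst hTT
  congr 1
  ext q
  by_cases hq : q ∈ T
  · exact ⟨fun _ => hM' q (hT hq), fun _ => hM q (hT hq)⟩
  · exact ⟨fun h => ((hx q).1 ⟨h, hq⟩).1, fun h => ((hx q).2 ⟨h, hq⟩).1⟩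

end Pool.Agent.K6.H55.HQ
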