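import Pool.Agent.K6.H55.HQ.Stm

/-!
# Piece CNTP: sets which contain none of many disjoint pairs
-/

set_option autoImplicit false

namespace Pool.Agent.K6.H55.HQ

namespace CNTP

variable {Q W : Type}

/-- the sets which contain none of the pairs -/
def SS (f g : W → Q) (T : Finset W) : Set (Set Q) := {M | ∀ w ∈ T, ¬ (f w ∈ M ∧ g w ∈ M)}

open Classical in
/-- which of the two points `a`, `b` are in `M` -/
noncomputable def code (a b : Q) (M : Set Q) : Fin 3 :=
  if a ∈ M then 0 else if b ∈ M then 1 else 2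

theorem inj {a b : Q} {M M' : Set Q} (h : ¬ (a ∈ M ∧ b ∈ M)) (h' : ¬ (a ∈ M' ∧ b ∈ M'))
    (e : M ∪ {a, b} = M' ∪ {a, b}) (hc : code a b M = code a b M') : M = M' := by
  have key : (a ∈ M ↔ a ∈ M') ∧ (b ∈ M ↔ b ∈ M') := by
    unfold code at hc
    by_cases h1 : a ∈ M
    · have h2 : b ∉ M := fun hb => h ⟨h1, hb⟩
      rw [if_pos h1] at hc
      by_cases h3 : a ∈ M'
      · have h4 : b ∉ M' := fun hb => h' ⟨h3, hb⟩
        exact ⟨⟨fun _ => h3, fun _ => h1⟩, ⟨fun x => absurd x h2, fun x => absurd x h4⟩⟩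
      · rw [if_neg h3] at hc
        split_ifs at hc
        · exact absurd hc (by decide)
        · exact absurd hc (by decide)
    · rw [if_neg h1] at hc
      by_cases h3 : a ∈ M'
      · rw [if_pos h3] at hc
        split_ifs at hc
        · exact absurd hc (by decide)
        · exact absurd hc (by decide)
      · rw [if_neg h3] at hc
        refine ⟨⟨fun x => absurd x h1, fun x => absurd x h3⟩, ?_⟩
        by_cases h5 : b ∈ M <;> by_cases h6 : b ∈ M'
        · exact ⟨fun _ => h6, fun _ => h5⟩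
        · rw [if_pos h5, if_neg h6] at hc
          exact absurd hc (by decide)
        · rw [if_neg h5, if_pos h6] at hc
          exact absurd hc (by decide)
        · exact ⟨fun x => absurd x h5, fun x => absurd x h6⟩
  ext x
  by_cases hxa : x = a
  · rw [hxa]; exact key.1
  by_cases hxb : x = b
  · rw [hxb]; exact key.2
  have h1 : x ∈ M ∪ {a, b} ↔ x ∈ M' ∪ {a, b} := by rw [e]
  simpa [hxa, hxb] using h1

theorem step [Finite Q] (f g : W → Q) (T : Finset W) (w : W) (hw : w ∉ T) [DecidableEq W]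
    (h : ∀ s ∈ T, f s ≠ f w ∧ f s ≠ g w ∧ g s ≠ f w ∧ g s ≠ g w) :
    4 * (SS f g (insert w T)).ncard ≤ 3 * (SS f g T).ncard := by
  set C : Set (Set Q) := {M | M ∈ SS f g T ∧ (f w ∈ M ∧ g w ∈ M)} with hC
  have hunion : SS f g T = SS f g (insert w T) ∪ C := by
    ext M
    constructor
    · intro hM
      by_cases hb : f w ∈ M ∧ g w ∈ M
      · exact Or.inr ⟨hM, hb⟩
      · refine Or.inl fun s hs => ?_
        rcases Finset.mem_insert.1 hs with rfl | hs
        · exact hb
        · exact hM s hs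
    · rintro (hM | hM)
      · exact fun s hs => hM s (Finset.mem_insert_of_mem hs)
      · exact hM.1
  have hdisj : Disjoint (SS f g (insert w T)) C := by
    rw [Set.disjoint_left]
    intro M hM hM2
    exact hM w (Finset.mem_insert_self _ _) hM2.2
  have hle : (SS f g (insert w T)).ncard ≤ C.ncard * 3 := by
    have h1 : (SS f g (insert w T)).ncard ≤ (C ×ˢ (Set.univ : Set (Fin 3))).ncard := by
      refine Set.ncard_le_ncard_of_injOn
        (fun M => (M ∪ {f w, g w}, code (f w) (g w) M)) ?_ ?_ (Set.toFinite _)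
      · intro M hM
        refine ⟨⟨fun s hs => ?_, ?_⟩, Set.mem_univ _⟩
        · obtain ⟨h1, h2, h3, h4⟩ := h s hs
          have h5 := hM s (Finset.mem_insert_of_mem hs)
          simpa [h1, h2, h3, h4] using h5
        · exact ⟨Or.inr (Or.inl rfl), Or.inr (Or.inr rfl)⟩
      · intro M hM M' hM' he
        have h1 := Prod.ext_iff.1 he
        exact inj (hM w (Finset.mem_insert_self _ _)) (hM' w (Finset.mem_insert_self _ _)) h1.1 h1.2
    rw [Set.ncard_prod, Set.ncard_univ, Nat.card_eq_fintype_card, Fintype.card_fin] at h1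
    exact h1
  have hcard : (SS f g T).ncard = (SS f g (insert w T)).ncard + C.ncard := by
    conv_lhs => rw [hunion]
    exact Set.ncard_union_eq hdisj (Set.toFinite _) (Set.toFinite _)
  omega

end CNTP

theorem t_CNTP : S_CNTP := by
  intro Q W _ f g T
  classical
  induction T using Finset.induction_on with
  | empty =>
    intro _
    have : {M : Set Q | ∀ w ∈ (∅ : Finset W), ¬ (f w ∈ M ∧ g w ∈ M)} = Set.univ := by
      ext M; simp
    rw [this, Set.ncard_univ]
    haveI := Fintype.ofFinite Q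
    rw [Nat.card_eq_fintype_card, Fintype.card_set, Nat.card_eq_fintype_card]
    simp
  | insert w T hw ih =>
    intro h
    have h1 := ih fun s hs t ht hst => h s (Finset.mem_insert_of_mem hs) t
      (Finset.mem_insert_of_mem ht) hst
    have h2 := CNTP.step f g T w hw fun s hs => h s (Finset.mem_insert_of_mem hs) w
      (Finset.mem_insert_self _ _) (fun e => hw (e ▸ hs))
    rw [Finset.card_insert_of_notMem hw, pow_succ, pow_succ]
    have e1 : {M : Set Q | ∀ s ∈ insert w T, ¬ (f s ∈ M ∧ g s ∈ M)} =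
      CNTP.SS f g (insert w T) := rfl
    have e2 : {M : Set Q | ∀ s ∈ T, ¬ (f s ∈ M ∧ g s ∈ M)} = CNTP.SS f g T := rfl
    rw [e2] at h1
    rw [e1]
    calc (CNTP.SS f g (insert w T)).ncard * (4 ^ T.card * 4)
        = (4 * (CNTP.SS f g (insert w T)).ncard) * 4 ^ T.card := by ring
      _ ≤ (3 * (CNTP.SS f g T).ncard) * 4 ^ T.card := Nat.mul_le_mul_right _ h2
      _ = 3 * ((CNTP.SS f g T).ncard * 4 ^ T.card) := by ring
      _ ≤ 3 * (3 ^ T.card * 2 ^ Nat.card Q) := Nat.mul_le_mul_left _ h1
      _ = 3 ^ T.card * 3 * 2 ^ Nat.card Q := by ring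

end Pool.Agent.K6.H55.HQ
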