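import Mathlib
import Pool.Agent.K6.H55.HQ.Stm

/-!
# Piece FIB of call55 (helper89)
-/

set_option autoImplicit false

namespace Pool.Agent.K6.H55.HQ
namespace FIB

abbrev Mu (r : ℕ) : Type := Fin (r+1) → Fin (r+1) → Fin (r+1)

def LL (r : ℕ) (k : Mu r × Fin (r+1)) : Set (Hyp r) :=
  {h | IsHF (k.1, h) ∧ ∃ u : Fin (r+1), u ≠ 0 ∧ (∀ a, k.1 u a = a) ∧ (0 : Fin (r+1)) ∈ h u k.2}

def BB (r : ℕ) (k : Mu r × Fin (r+1)) : Set (Hyp r) :=
  {h | IsHF (k.1, h) ∧ ∃ u : Fin (r+1), u ≠ 0 ∧ (∀ a, k.1 u a = a) ∧ ∀ c, c ∈ h u k.2}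

theorem uniq {r : ℕ} {m : Mu r} {h : Hyp r} (H : IsHF (m, h)) {u v : Fin (r+1)}
    (hu : ∀ a, m u a = a) (hv : ∀ a, m v a = a) : u = v := by
  obtain ⟨-, hc, -⟩ := H
  have h1 : m u v = v := hu v
  have h2 : m v u = u := hv u
  have h3 : m u v = m v u := hc u v
  rw [← h2, ← h3, h1]

theorem cardB (r : ℕ) :
    {p : Str r | IsHF p ∧ Full p}.ncard ≤ ∑ k : Mu r × Fin (r+1), (BB r k).ncard := by
  classical
  have h1 : ∑ k : Mu r × Fin (r+1), (BB r k).ncard = Nat.card (Σ k : Mu r × Fin (r+1), BB r k) := by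
    rw [Nat.card_sigma]
    rfl
  rw [h1]
  refine Nat.card_le_card_of_surjective
    (α := Σ k : Mu r × Fin (r+1), BB r k) (β := {p : Str r | IsHF p ∧ Full p})
    (fun x => ⟨(x.1.1, x.2.1), x.2.2.1, ?_⟩) ?_
  · obtain ⟨-, u, hu, hu1, hc⟩ := x.2.2
    exact ⟨u, x.1.2, hu, hu1, hc⟩
  · rintro ⟨⟨m, h⟩, H, u, e, hu, hu1, hc⟩
    exact ⟨⟨(m, e), ⟨h, H, u, hu, hu1, hc⟩⟩, rfl⟩

theorem cardL (r : ℕ) :
    ∑ k : Mu r × Fin (r+1), (LL r k).ncard ≤ {p : Str r | IsHF p}.ncard := by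
  classical
  have h1 : ∑ k : Mu r × Fin (r+1), (LL r k).ncard = Nat.card (Σ k : Mu r × Fin (r+1), LL r k) := by
    rw [Nat.card_sigma]
    rfl
  rw [h1]
  refine Nat.card_le_card_of_injective
    (α := Σ k : Mu r × Fin (r+1), LL r k) (β := {p : Str r | IsHF p})
    (fun x => ⟨(x.1.1, x.2.1), x.2.2.1⟩) ?_
  rintro ⟨⟨m, e⟩, ⟨h, H, u, hu, hu1, hc⟩⟩ ⟨⟨m', e'⟩, ⟨h', H', u', hu', hu1', hc'⟩⟩ hx
  have hx' : (m, h) = (m', h') := congrArg Subtype.val hx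
  obtain ⟨rfl, rfl⟩ := Prod.mk.inj hx'
  have huu : u = u' := uniq H hu1 hu1'
  subst huu
  have hee : e = e' := by
    obtain ⟨-, -, -, -, -, -, -, -, -, -, h11, -⟩ := H
    exact (h11 u).unique hc hc'
  subst hee
  rfl

theorem main (h1 : S_GRP) (h2 : S_MTON) (h3 : S_NTOM) (h5 : S_FULLN) (r₀ : ℕ)
    (h4 : ∀ (A : Type) [CommGroup A] [Finite A], r₀ ≤ Nat.card A →
      2 ^ Nat.card (Orb A) ≤ 2 * {M : Set (Orb A) | Good M}.ncard)
    (r : ℕ) (hr : r₀ ≤ r) (k : Mu r × Fin (r+1)) :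
    (BB r k).ncard * 2 ^ (r / 6) ≤ 2 * (LL r k).ncard := by
  classical
  obtain ⟨m, e⟩ := k
  rcases (BB r (m, e)).eq_empty_or_nonempty with hem | ⟨h, H, u, hu, hu1, hc⟩
  · rw [hem]; simp
  dsimp only at H hu1 hc
  have hH := H
  obtain ⟨q1, q2, q3, q4, q5, q6, q7, q8, q9, q10, q11, q12, q13⟩ := H
  dsimp only at q1 q2 q3 q4 q5 q6 q7 q8 q9 q10 q11 q12 q13
  have hM : MOK m := ⟨q1, q2, q3, q4, q5, q6⟩
  obtain ⟨inst, hm⟩ := h1 r m hM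
  have hone : ∀ a : U r, m (1 : U r).1 a.1 = a.1 := by
    intro a
    rw [← hm, one_mul]
  have hone' : ∀ a, m (1 : U r).1 a = a := by
    intro a
    by_cases ha : a = 0
    · subst ha
      rw [q2]; exact q4 _
    · exact hone ⟨a, ha⟩
  have hu1e : ∀ v, (∀ a, m v a = a) → v = (1 : U r).1 := fun v hv => uniq hH hv hone'
  have he : e ≠ 0 := by
    intro he
    subst he
    have h0 := hc 0
    rw [q8, q10] at h0
    exact hu (Set.mem_singleton_iff.mp h0).symm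
  set ε : U r := ⟨e, he⟩ with hε
  have hue := hu1e u hu1
  have hee : ε * ε = 1 := by
    apply Subtype.ext
    rw [hm]
    show m e e = (1 : U r).1
    rw [← hue]
    have h0 : (0 : Fin (r+1)) ∈ h e (m e e) := by
      have h6 := q13 e u e
      have h7 : (0 : Fin (r+1)) ∈ (fun x => m e x) '' h u e :=
        ⟨0, hc 0, by show m e 0 = 0; rw [q2]; exact q4 _⟩
      rw [h6] at h7
      have h8 : m e u = e := by rw [q2]; exact hu1 e
      rwa [h8] at h7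
    have h9 : (0 : Fin (r+1)) ∈ h e u := by
      rw [q8]; exact hc 0
    exact (q11 e).unique h0 h9
  have hcard : Nat.card (U r) = r := by
    rw [Nat.card_eq_fintype_card]
    simp
  have e1 : BB r (m, e) ⊆ {h : Hyp r | IsHF (m, h) ∧ ∀ c, c ∈ h (1 : U r).1 ε.1} := by
    rintro h' ⟨H', u', hu', hu1', hc'⟩
    dsimp only at hu1' hc'
    have := hu1e u' hu1'
    subst this
    exact ⟨H', hc'⟩
  have e2 : {h : Hyp r | IsHF (m, h) ∧ (0 : Fin (r+1)) ∈ h (1 : U r).1 ε.1} ⊆ LL r (m, e) := by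
    rintro h' ⟨H', hc'⟩
    exact ⟨H', (1 : U r).1, (1 : U r).2, hone', hc'⟩
  have f1 := Set.ncard_le_ncard e1 (Set.toFinite _)
  have f2 := Set.ncard_le_ncard e2 (Set.toFinite _)
  have g1 := h3 r m hM hm ε
  have g2 := h5 (U r) ε
  have g3 := h4 (U r) (by rw [hcard]; exact hr)
  have g4 := h2 r m hM hm ε hee
  rw [hcard] at g2
  calc (BB r (m, e)).ncard * 2 ^ (r / 6)
      ≤ {M : Set (Orb (U r)) | ∀ y, mk ε y ∈ M}.ncard * 2 ^ (r / 6) :=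
        Nat.mul_le_mul_right _ (f1.trans g1)
    _ ≤ 2 ^ Nat.card (Orb (U r)) := g2
    _ ≤ 2 * {M : Set (Orb (U r)) | Good M}.ncard := g3
    _ ≤ 2 * (LL r (m, e)).ncard := Nat.mul_le_mul_left _ (g4.trans f2)

end FIB

theorem t_FIB (h1 : S_GRP) (h2 : S_MTON) (h3 : S_NTOM) (h4 : S_GOOD) (h5 : S_FULLN) : S_FIB := by
  obtain ⟨r₀, h4'⟩ := h4
  refine ⟨r₀, fun r hr => ?_⟩
  calc {p : Str r | IsHF p ∧ Full p}.ncard * 2 ^ (r / 6)
      ≤ (∑ k : FIB.Mu r × Fin (r+1), (FIB.BB r k).ncard) * 2 ^ (r / 6) :=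
        Nat.mul_le_mul_right _ (FIB.cardB r)
    _ = ∑ k : FIB.Mu r × Fin (r+1), (FIB.BB r k).ncard * 2 ^ (r / 6) := Finset.sum_mul _ _ _
    _ ≤ ∑ k : FIB.Mu r × Fin (r+1), 2 * (FIB.LL r k).ncard :=
        Finset.sum_le_sum (fun k _ => FIB.main h1 h2 h3 h5 r₀ h4' r hr k)
    _ = 2 * ∑ k : FIB.Mu r × Fin (r+1), (FIB.LL r k).ncard := (Finset.mul_sum _ _ _).symm
    _ ≤ 2 * {p : Str r | IsHF p}.ncard := Nat.mul_le_mul_left _ (FIB.cardL r)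

end Pool.Agent.K6.H55.HQ
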