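import Pool.Agent.K6.H55.HQ.Stm

set_option autoImplicit false

namespace Pool.Agent.K6.H55.HQ

theorem fib_sum {α β : Type} [Fintype α] [Finite β] (P : α × β → Prop) :
    {p : α × β | P p}.ncard = ∑ a : α, {b : β | P (a, b)}.ncard := by
  classical
  have e : {p : α × β // P p} ≃ Σ a : α, {b : β // P (a, b)} :=
    { toFun := fun p => ⟨p.1.1, p.1.2, p.2⟩
      invFun := fun s => ⟨(s.1, s.2.1), s.2.2⟩
      left_inv := fun p => rfl
      right_inv := fun s => rfl }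
  have h1 : {p : α × β | P p}.ncard = Nat.card {p : α × β // P p} :=
    (Nat.card_coe_set_eq _).symm
  have h2 : ∀ a : α, {b : β | P (a, b)}.ncard = Nat.card {b : β // P (a, b)} :=
    fun a => (Nat.card_coe_set_eq _).symm
  rw [h1, Nat.card_congr e, Nat.card_sigma]
  exact Finset.sum_congr rfl fun a _ => (h2 a).symm

theorem fib_union {ι β : Type} [Fintype ι] [Finite β] (S : ι → Set β) (T : Set β)
    (h : ∀ x ∈ T, ∃ i, x ∈ S i) : T.ncard ≤ ∑ i, (S i).ncard := by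
  classical
  have h1 : T.ncard = Nat.card T := (Nat.card_coe_set_eq _).symm
  have h2 : ∑ i, (S i).ncard = Nat.card (Σ i, S i) := by
    rw [Nat.card_sigma]
    exact Finset.sum_congr rfl fun a _ => (Nat.card_coe_set_eq _).symm
  rw [h1, h2]
  refine Nat.card_le_card_of_injective
    (fun x : T => (⟨(h x.1 x.2).choose, x.1, (h x.1 x.2).choose_spec⟩ : Σ i, S i)) ?_
  intro x y hxy
  have h3 : (⟨(h x.1 x.2).choose, x.1, (h x.1 x.2).choose_spec⟩ : Σ i, S i).2.1 =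
    (⟨(h y.1 y.2).choose, y.1, (h y.1 y.2).choose_spec⟩ : Σ i, S i).2.1 := by
    have := congrArg (fun s : Σ i, S i => (s.2.1 : β)) hxy
    exact this
  exact Subtype.ext h3

theorem fib_disj {ι β : Type} [Fintype ι] [Finite β] (S : ι → Set β) (T : Set β)
    (h : ∀ i, S i ⊆ T) (hd : ∀ i j x, x ∈ S i → x ∈ S j → i = j) :
    ∑ i, (S i).ncard ≤ T.ncard := by
  classical
  have h1 : T.ncard = Nat.card T := (Nat.card_coe_set_eq _).symm
  have h2 : ∑ i, (S i).ncard = Nat.card (Σ i, S i) := by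
    rw [Nat.card_sigma]
    exact Finset.sum_congr rfl fun a _ => (Nat.card_coe_set_eq _).symm
  rw [h1, h2]
  refine Nat.card_le_card_of_injective
    (fun s : Σ i, S i => (⟨s.2.1, h s.1 s.2.2⟩ : T)) ?_
  rintro ⟨i, x, hx⟩ ⟨j, y, hy⟩ hxy
  have h3 : x = y := congrArg Subtype.val hxy
  subst h3
  have h4 := hd i j x hx hy
  subst h4
  rfl

theorem fib_eps {r : ℕ} (m : Fin (r+1) → Fin (r+1) → Fin (r+1)) [CommGroup (U r)]
    (hg : ∀ a b : U r, (a * b).1 = m a.1 b.1) (h : Hyp r) (hf : IsHF (m, h)) (ε : U r)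
    (h0 : (0 : Fin (r+1)) ∈ h (1 : U r).1 ε.1) : ε * ε = 1 := by
  obtain ⟨-, hc, -, hz, -, -, -, hcom, -, -, hu, -, hs⟩ := hf
  have h1 : (0 : Fin (r+1)) ∈ h ε.1 (1 : U r).1 := by
    have := hcom (1 : U r).1 ε.1
    simp only at this
    rw [← this]
    exact h0
  have h2 : (0 : Fin (r+1)) ∈ h ε.1 (ε * ε).1 := by
    have h3 := hs ε.1 (1 : U r).1 ε.1
    simp only at h3
    rw [← hg, ← hg, mul_one] at h3
    rw [← h3]
    refine ⟨0, h0, ?_⟩
    have h4 := hc ε.1 0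
    simp only at h4
    show m ε.1 0 = 0
    rw [h4]
    exact hz ε.1
  exact Subtype.ext ((hu ε.1).unique h2 h1)

theorem fib_full {r : ℕ} (m : Fin (r+1) → Fin (r+1) → Fin (r+1)) [CommGroup (U r)]
    (hg : ∀ a b : U r, (a * b).1 = m a.1 b.1) (h : Hyp r) (hf : IsHF (m, h))
    (hF : Full (m, h)) : ∃ ε : U r, ∀ c, c ∈ h (1 : U r).1 ε.1 := by
  obtain ⟨-, hc, -, hz, -, -, -, hcom, -, hz2, hu, -, hs⟩ := hf
  obtain ⟨u, ε, hu0, hu1, hall⟩ := hF
  simp only at hu1 hall hc hcom hz2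
  have h1 : u = (1 : U r).1 := by
    have h2 : m u (1 : U r).1 = (1 : U r).1 := hu1 _
    have h3 : m (1 : U r).1 u = u := by
      have h4 := hg 1 ⟨u, hu0⟩
      rw [one_mul] at h4
      exact h4.symm
    rw [hc, h3] at h2
    exact h2
  subst h1
  have h5 : ε ≠ 0 := by
    rintro rfl
    have h6 := hall 0
    rw [hcom, hz2] at h6
    exact (1 : U r).2 h6.symm
  exact ⟨⟨ε, h5⟩, hall⟩

theorem fib_card (r : ℕ) : Nat.card (U r) = r := by
  classical
  have h1 : Nat.card (U r) = Fintype.card {a : Fin (r+1) // a ≠ 0} := Nat.card_eq_fintype_card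
  rw [h1, Fintype.card_subtype_compl]
  simp

theorem t_FIBm (h1 : S_GRP) (h2 : S_MTON) (h3 : S_NTOM) (h4 : S_GOOD) (h5 : S_FULLN) :
    S_FIB := by
  classical
  obtain ⟨r₀, h4⟩ := h4
  refine ⟨r₀, fun r hr => ?_⟩
  have e1 := fib_sum (α := Fin (r+1) → Fin (r+1) → Fin (r+1)) (β := Hyp r)
    (fun p => IsHF (r := r) p ∧ Full p)
  have e2 := fib_sum (α := Fin (r+1) → Fin (r+1) → Fin (r+1)) (β := Hyp r)
    (fun p => IsHF (r := r) p)
  rw [e1, e2, Finset.sum_mul, Finset.mul_sum]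
  refine Finset.sum_le_sum fun m _ => ?_
  by_cases hm : ∃ h : Hyp r, IsHF (m, h)
  · obtain ⟨h0, hh0⟩ := hm
    have hMOK : MOK m := by
      obtain ⟨a1, a2, a3, a4, a5, a6, -⟩ := hh0
      exact ⟨a1, a2, a3, a4, a5, a6⟩
    obtain ⟨inst, hg⟩ := h1 r m hMOK
    have hu := fib_union (fun ε : U r => {h : Hyp r | IsHF (m, h) ∧ ∀ c, c ∈ h (1 : U r).1 ε.1})
      {h : Hyp r | IsHF (m, h) ∧ Full (m, h)} (fun h hh => by
        obtain ⟨ε, hε⟩ := fib_full m hg h hh.1 hh.2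
        exact ⟨ε, hh.1, hε⟩)
    have hd := fib_disj
      (fun ε : U r => {h : Hyp r | IsHF (m, h) ∧ (0 : Fin (r+1)) ∈ h (1 : U r).1 ε.1})
      {h : Hyp r | IsHF (m, h)} (fun ε h hh => hh.1) (fun ε ε' h hh hh' => by
        obtain ⟨-, -, -, -, -, -, -, -, -, -, hun, -, -⟩ := hh.1
        exact Subtype.ext ((hun (1 : U r).1).unique hh.2 hh'.2))
    have hk : ∀ ε : U r,
        {h : Hyp r | IsHF (m, h) ∧ ∀ c, c ∈ h (1 : U r).1 ε.1}.ncard * 2 ^ (r / 6) ≤
        2 * {h : Hyp r | IsHF (m, h) ∧ (0 : Fin (r+1)) ∈ h (1 : U r).1 ε.1}.ncard := by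
      intro ε
      by_cases hE : ∃ h : Hyp r, IsHF (m, h) ∧ ∀ c, c ∈ h (1 : U r).1 ε.1
      · obtain ⟨h, hh, hhc⟩ := hE
        have hee : ε * ε = 1 := fib_eps m hg h hh ε (hhc 0)
        have k1 := h3 r m hMOK hg ε
        have k2 := h5 (U r) ε
        have k3 := h4 (U r) (by rw [fib_card]; exact hr)
        have k4 := h2 r m hMOK hg ε hee
        rw [fib_card] at k2
        calc _ ≤ {M : Set (Orb (U r)) | ∀ y, mk ε y ∈ M}.ncard * 2 ^ (r / 6) :=
              Nat.mul_le_mul_right _ k1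
          _ ≤ 2 ^ Nat.card (Orb (U r)) := k2
          _ ≤ 2 * {M : Set (Orb (U r)) | Good M}.ncard := k3
          _ ≤ _ := Nat.mul_le_mul_left _ k4
      · have hemp : {h : Hyp r | IsHF (m, h) ∧ ∀ c, c ∈ h (1 : U r).1 ε.1} = ∅ := by
          ext h
          simp only [Set.mem_ofPred_eq, Set.mem_empty_iff_false, iff_false]
          intro hh
          exact hE ⟨h, hh⟩
        rw [hemp, Set.ncard_empty, zero_mul]
        exact Nat.zero_le _
    calc _ ≤ (∑ ε : U r, {h : Hyp r | IsHF (m, h) ∧ ∀ c, c ∈ h (1 : U r).1 ε.1}.ncard)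
              * 2 ^ (r / 6) := Nat.mul_le_mul_right _ hu
      _ = ∑ ε : U r, {h : Hyp r | IsHF (m, h) ∧ ∀ c, c ∈ h (1 : U r).1 ε.1}.ncard * 2 ^ (r / 6) :=
          Finset.sum_mul _ _ _
      _ ≤ ∑ ε : U r,
            2 * {h : Hyp r | IsHF (m, h) ∧ (0 : Fin (r+1)) ∈ h (1 : U r).1 ε.1}.ncard :=
          Finset.sum_le_sum fun ε _ => hk ε
      _ = 2 * ∑ ε : U r, {h : Hyp r | IsHF (m, h) ∧ (0 : Fin (r+1)) ∈ h (1 : U r).1 ε.1}.ncard :=
          (Finset.mul_sum _ _ _).symm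
      _ ≤ _ := Nat.mul_le_mul_left _ hd
  · have hemp : {b : Hyp r | IsHF (m, b) ∧ Full (m, b)} = ∅ := by
      ext h
      simp only [Set.mem_ofPred_eq, Set.mem_empty_iff_false, iff_false]
      intro hh
      exact hm ⟨h, hh.1⟩
    rw [hemp, Set.ncard_empty, zero_mul]
    exact Nat.zero_le _

end Pool.Agent.K6.H55.HQ
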