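import Pool.Agent.K6.H55.HQ.Stm

/-! Piece FLD (helper41). -/

set_option autoImplicit false

namespace Pool.Agent.K6.H55.HQ

/-- the bounds of the iteration. -/
def NF (r : ℕ) : ℕ → ℕ
  | 0 => 2
  | k + 1 => r * (NF r k + 1)

theorem NF_le (r : ℕ) (hr : 0 < r) (k : ℕ) : NF r k ≤ (3 * r) ^ (k + 1) := by
  induction k with
  | zero => simp [NF]; omega
  | succ k ih =>
    have h1 : 1 ≤ (3 * r) ^ (k + 1) := Nat.one_le_pow _ _ (by omega)
    calc NF r (k + 1) = r * (NF r k + 1) := rfl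
      _ ≤ r * ((3 * r) ^ (k + 1) + 2 * (3 * r) ^ (k + 1)) :=
        Nat.mul_le_mul_left _ (by omega)
      _ = (3 * r) ^ (k + 1 + 1) := by ring

open Classical in
theorem fld_step (h : S_AVG) (K : Type) [Field K] (G : Subgroup Kˣ) (r : ℕ) (a : Fin r → Kˣ)
    (hcov : ∀ z : Kˣ, ∃ i, ∃ g ∈ G, z = a i * g) (b : K) (hb : b ≠ 0)
    (hG : ∀ g ∈ G, ∀ g' ∈ G, b ≠ (g : K) - (g' : K)) (c : Kˣ) (F : Finset K) :
    ∃ F₁ ⊆ F, F.card ≤ r * (F₁.card + 1) ∧
      ∀ s ∈ F₁, ∀ t ∈ F₁, ∀ g ∈ G, s - t ≠ (c : K) * (g : K) := by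
  set m : K := b / (c : K) with hm
  have hm0 : m ≠ 0 := div_ne_zero hb c.ne_zero
  have hinj : Function.Injective (fun s : K => s * m) := mul_left_injective₀ hm0
  set E : Set K := {x | x = 0 ∨ ∃ g ∈ G, x = ((g : Kˣ) : K)} with hE
  obtain ⟨x, F', hsub, hcard, hmem⟩ := h K r E (fun i => (a i : K)) (fun i => (a i).ne_zero)
    (by
      intro z
      by_cases hz : z = 0
      · obtain ⟨i, -⟩ := hcov 1
        exact ⟨i, 0, Or.inl rfl, by rw [hz, mul_zero]⟩
      · obtain ⟨i, g, hg, hzi⟩ := hcov (Units.mk0 z hz)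
        refine ⟨i, (g : K), Or.inr ⟨g, hg, rfl⟩, ?_⟩
        have := congrArg (fun u : Kˣ => (u : K)) hzi
        simpa using this)
    (F.image (fun s => s * m))
  rw [Finset.card_image_of_injective _ hinj] at hcard
  refine ⟨F.filter (fun s => s * m ∈ F' ∧ s * m + x ≠ 0), Finset.filter_subset _ _, ?_, ?_⟩
  · refine hcard.trans (Nat.mul_le_mul_left _ ?_)
    have h1 : F' ⊆ insert (-x) ((F.filter (fun s => s * m ∈ F' ∧ s * m + x ≠ 0)).image
        (fun s => s * m)) := by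
      intro y hy
      by_cases hyx : y = -x
      · rw [hyx]; exact Finset.mem_insert_self _ _
      · obtain ⟨s, hs, rfl⟩ := Finset.mem_image.mp (hsub hy)
        refine Finset.mem_insert_of_mem (Finset.mem_image.mpr ⟨s, Finset.mem_filter.mpr
          ⟨hs, hy, fun h0 => hyx (eq_neg_of_add_eq_zero_left h0)⟩, rfl⟩)
    refine (Finset.card_le_card h1).trans ((Finset.card_insert_le _ _).trans ?_)
    exact Nat.add_le_add_right Finset.card_image_le 1
  · intro s hs t ht g hg heq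
    obtain ⟨-, hs1, hs2⟩ := Finset.mem_filter.mp hs
    obtain ⟨-, ht1, ht2⟩ := Finset.mem_filter.mp ht
    rcases hmem _ hs1 with h0 | ⟨g1, hg1, e1⟩
    · exact hs2 h0
    rcases hmem _ ht1 with h0 | ⟨g2, hg2, e2⟩
    · exact ht2 h0
    refine hG (g1 * g⁻¹) (G.mul_mem hg1 (G.inv_mem hg)) (g2 * g⁻¹)
      (G.mul_mem hg2 (G.inv_mem hg)) ?_
    have hc : (c : K) ≠ 0 := c.ne_zero
    have hg0 : (g : K) ≠ 0 := g.ne_zero
    have e3 : b * (g : K) = (g1 : K) - (g2 : K) := by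
      rw [← e1, ← e2]
      have : (s * m + x) - (t * m + x) = (s - t) * m := by ring
      rw [this, heq, hm]
      field_simp
    rw [Units.val_mul, Units.val_mul, ← sub_mul, ← e3, Units.val_inv_eq_inv_val, mul_assoc,
      mul_inv_cancel₀ hg0, mul_one]

open Classical in
theorem t_FLD (h : S_AVG) : S_FLD := by
  intro K _ G r a hcov hF b
  by_cases hb : b = 0
  · exact ⟨1, G.one_mem, 1, G.one_mem, by rw [hb, sub_self]⟩
  by_contra hcon
  have hG : ∀ g ∈ G, ∀ g' ∈ G, b ≠ (g : K) - (g' : K) := by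
    intro g hg g' hg' he
    exact hcon ⟨g, hg, g', hg', he⟩
  have hr : 0 < r := by
    obtain ⟨i, -⟩ := hcov 1
    exact i.pos
  have key : ∀ (S : Finset (Fin r)) (F : Finset K), NF r S.card ≤ F.card →
      ∃ F₁ ⊆ F, 2 ≤ F₁.card ∧ ∀ i ∈ S, ∀ s ∈ F₁, ∀ t ∈ F₁, ∀ g ∈ G,
        s - t ≠ (a i : K) * (g : K) := by
    intro S
    induction S using Finset.induction_on with
    | empty =>
      intro F hF
      exact ⟨F, Finset.Subset.refl _, by simpa [NF] using hF, by simp⟩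
    | insert i S hi ih =>
      intro F hF
      rw [Finset.card_insert_of_notMem hi] at hF
      obtain ⟨F₁, hsub, hcard, hno⟩ := fld_step h K G r a hcov b hb hG (a i) F
      have h1 : NF r S.card ≤ F₁.card := by
        have h2 : r * (NF r S.card + 1) ≤ r * (F₁.card + 1) := hF.trans hcard
        have := Nat.le_of_mul_le_mul_left h2 hr
        omega
      obtain ⟨F₂, hsub2, hcard2, hno2⟩ := ih F₁ h1
      refine ⟨F₂, hsub2.trans hsub, hcard2, ?_⟩
      intro j hj s hs t ht g hg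
      rcases Finset.mem_insert.mp hj with rfl | hj
      · exact hno s (hsub2 hs) t (hsub2 ht) g hg
      · exact hno2 j hj s hs t ht g hg
  obtain ⟨F, hF⟩ := hF
  obtain ⟨F₁, -, hcard, hno⟩ := key Finset.univ F (by
    rw [Finset.card_univ, Fintype.card_fin]
    exact (NF_le r hr r).trans hF)
  obtain ⟨s, hs, t, ht, hst⟩ := Finset.one_lt_card.mp (by omega : 1 < F₁.card)
  have hst' : s - t ≠ 0 := sub_ne_zero.mpr hst
  obtain ⟨i, g, hg, hz⟩ := hcov (Units.mk0 (s - t) hst')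
  refine hno i (Finset.mem_univ _) s hs t ht g hg ?_
  have := congrArg (fun u : Kˣ => (u : K)) hz
  simpa using this

end Pool.Agent.K6.H55.HQ
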