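import Pool.Agent.K6.H55.HQ.Stm

set_option autoImplicit false

/-!
The sets of orbits which contain all `mk e y`.
-/

namespace Pool.Agent.K6.H55.HQ

theorem t_FULLN (h1 : S_CA) (h2 : S_SIX) : S_FULLN := by
  intro A _ _ e
  classical
  have hft : Fintype A := Fintype.ofFinite A
  have hc : Nat.card A ≤ 6 * (Finset.univ.image (mk e)).card := by
    rw [Nat.card_eq_fintype_card, ← Finset.card_univ]
    apply Finset.card_le_mul_card_image
    intro q _
    have h := h2 A e q
    rw [Set.ncard_eq_toFinset_card'] at h
    convert h using 2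
    ext y
    simp
  have hP : {M : Set (Orb A) | ∀ y, mk e y ∈ M} =
      {M : Set (Orb A) | ∀ q ∈ Finset.univ.image (mk e), q ∈ M} := by
    ext M
    simp
  have h := h1 (Orb A) (Finset.univ.image (mk e))
  rw [hP]
  refine le_trans (Nat.mul_le_mul_left _ (Nat.pow_le_pow_right (by norm_num) ?_)) h
  omega

end Pool.Agent.K6.H55.HQ
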