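import Pool.Agent.K6.H55.HQ.Stm

/-!
# Assembly: the proportion of quotient hyperfields tends to 0
-/

set_option autoImplicit false

namespace Pool.Agent.K6.H55.HQ

open Filter Topology

namespace FIN

/-- hyperfields with `1 ⊞ (-1)` everything -/
def PF {r : ℕ} (p : Str r) : Prop := IsHF p ∧ Full p

theorem step_A (hI : S_ISO) (hQL : S_QL) (hQHF : S_QHF) (hQS : S_QS) (r : ℕ) :
    (classes (IsQ (r := r))).ncard ≤ (classes (PF (r := r))).ncard + (3 * r) ^ (r + 1) := by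
  set X : ℕ := (3 * r) ^ (r + 1) with hX
  set S1 : Set (Set (Str r)) := {C : Set (Str r) | ∃ p : Str r, (∃ (K : Type) (_ : Field K)
    (G : Subgroup Kˣ) (f : K → Fin (r+1)), Rep p K G f ∧ Finite K ∧ Nat.card K < X) ∧
    C = {q | IsQ q ∧ Iso p q}} with hS1
  set S2 : Set (Set (Str r)) := {C : Set (Str r) | ∃ p : Str r, (IsQ p ∧ Full p) ∧
    C = {q | IsQ q ∧ Iso p q}} with hS2
  have h1 : classes (IsQ (r := r)) ⊆ S2 ∪ S1 := by
    rintro C ⟨p, hp, rfl⟩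
    obtain ⟨K, hK, G, f, hR⟩ := hp
    by_cases h : Finite K ∧ Nat.card K < X
    · exact Or.inr ⟨p, ⟨K, hK, G, f, hR, h.1, h.2⟩, rfl⟩
    · refine Or.inl ⟨p, ⟨⟨K, hK, G, f, hR⟩, hQL r p K G f hR ?_⟩, rfl⟩
      rcases finite_or_infinite K with hf | hf
      · have : Fintype K := Fintype.ofFinite K
        refine ⟨Finset.univ, ?_⟩
        rw [Finset.card_univ, ← Nat.card_eq_fintype_card]
        by_contra hlt
        exact h ⟨hf, not_le.1 hlt⟩
      · obtain ⟨F, hF⟩ := Infinite.exists_subset_card_eq K X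
        exact ⟨F, hF.ge⟩
  have h2 : S1.ncard ≤ X := hQS r X
  have h3 : S2.ncard ≤ (classes (PF (r := r))).ncard := by
    refine Set.ncard_le_ncard_of_injOn (fun C => {q | PF q ∧ ∃ p ∈ C, Iso p q}) ?_ ?_
      (Set.toFinite _)
    · rintro C ⟨p, ⟨hp1, hp2⟩, rfl⟩
      refine ⟨p, ⟨hQHF r p hp1, hp2⟩, ?_⟩
      ext q
      constructor
      · rintro ⟨hq, p', ⟨_, hp'⟩, hpq⟩
        exact ⟨hq, (hI r).trans hp' hpq⟩
      · rintro ⟨hq, hpq⟩
        exact ⟨hq, p, ⟨hp1, (hI r).refl p⟩, hpq⟩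
    · rintro C ⟨p, ⟨hp1, hp2⟩, rfl⟩ C' ⟨p', ⟨hp1', hp2'⟩, rfl⟩ heq
      have h4 : p ∈ {q | PF q ∧ ∃ p ∈ {q | IsQ q ∧ Iso p q}, Iso p q} :=
        ⟨⟨hQHF r p hp1, hp2⟩, p, ⟨hp1, (hI r).refl p⟩, (hI r).refl p⟩
      change {q | PF q ∧ ∃ p₁ ∈ {q | IsQ q ∧ Iso p q}, Iso p₁ q} =
        {q | PF q ∧ ∃ p₁ ∈ {q | IsQ q ∧ Iso p' q}, Iso p₁ q} at heq
      have h5 : p ∈ {q | PF q ∧ ∃ p₁ ∈ {q | IsQ q ∧ Iso p' q}, Iso p₁ q} := by
        rw [← heq]
        exact ⟨⟨hQHF r p hp1, hp2⟩, p, ⟨hp1, (hI r).refl p⟩, (hI r).refl p⟩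
      obtain ⟨_, p₁, ⟨_, h6⟩, h7⟩ := h5
      have h8 : Iso p' p := (hI r).trans h6 h7
      ext q
      exact ⟨fun h => ⟨h.1, (hI r).trans h8 h.2⟩, fun h => ⟨h.1, (hI r).trans ((hI r).symm h8) h.2⟩⟩
  calc (classes (IsQ (r := r))).ncard ≤ (S2 ∪ S1).ncard := Set.ncard_le_ncard h1 (Set.toFinite _)
    _ ≤ S2.ncard + S1.ncard := Set.ncard_union_le _ _
    _ ≤ _ := add_le_add h3 h2

end FIN

open FIN in
theorem t_FIN (hFIB : S_FIB) (hBIG : S_BIG) (hLABA : S_LABA) (hLABB : S_LABB) (hINV : S_INV)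
    (hI : S_ISO) (hQL : S_QL) (hQHF : S_QHF) (hQS : S_QS) (hARIA : S_ARIA) (hARIB : S_ARIB) :
    Tendsto (fun r : ℕ => ((classes (IsQ (r := r))).ncard : ℝ) /
      ((classes (IsHF (r := r))).ncard : ℝ)) atTop (𝓝 0) := by
  obtain ⟨r₀, hr₀⟩ := hFIB
  obtain ⟨r₁, hr₁⟩ := hBIG
  have hlim := hARIA.add hARIB
  rw [add_zero] at hlim
  refine squeeze_zero' (Eventually.of_forall fun r => by positivity) ?_ hlim
  filter_upwards [eventually_ge_atTop r₀, eventually_ge_atTop r₁, eventually_ge_atTop 1] with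
    r h0 h1 h2
  have e1 := step_A hI hQL hQHF hQS r
  have e2 : (classes (PF (r := r))).ncard * r.factorial ≤
      r ^ Nat.log 2 r * {p : Str r | PF p}.ncard :=
    hLABB r PF h2 (fun p hp => hp.1) fun p q hp hpq =>
      ⟨(hINV r p q hpq).1 hp.1, (hINV r p q hpq).2 hp.2⟩
  have e3 : {p : Str r | PF p}.ncard * 2 ^ (r / 6) ≤ 2 * {p : Str r | IsHF p}.ncard := hr₀ r h0
  have e4 := hLABA r
  have e5 := hr₁ r h1
  set Q := (classes (IsQ (r := r))).ncard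
  set H := (classes (IsHF (r := r))).ncard
  set CB := (classes (PF (r := r))).ncard
  set B := {p : Str r | PF p}.ncard
  set L := {p : Str r | IsHF p}.ncard
  have hf : 0 < r.factorial := Nat.factorial_pos r
  have f1 : CB * 2 ^ (r / 6) ≤ 2 * (r + 1) * r ^ Nat.log 2 r * H := by
    have : r.factorial * (CB * 2 ^ (r / 6)) ≤
        r.factorial * (2 * (r + 1) * r ^ Nat.log 2 r * H) := by
      calc r.factorial * (CB * 2 ^ (r / 6)) = (CB * r.factorial) * 2 ^ (r / 6) := by ring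
        _ ≤ (r ^ Nat.log 2 r * B) * 2 ^ (r / 6) := Nat.mul_le_mul_right _ e2
        _ = r ^ Nat.log 2 r * (B * 2 ^ (r / 6)) := by ring
        _ ≤ r ^ Nat.log 2 r * (2 * L) := Nat.mul_le_mul_left _ e3
        _ ≤ r ^ Nat.log 2 r * (2 * ((r + 1).factorial * H)) :=
            Nat.mul_le_mul_left _ (Nat.mul_le_mul_left _ e4)
        _ = r.factorial * (2 * (r + 1) * r ^ Nat.log 2 r * H) := by
            rw [Nat.factorial_succ]; ring
    exact Nat.le_of_mul_le_mul_left this hf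
  have f2 : 2 ^ (r ^ 2 / 6) ≤ 2 * (r + 1).factorial * H := by
    calc 2 ^ (r ^ 2 / 6) ≤ 2 * L := e5
      _ ≤ 2 * ((r + 1).factorial * H) := Nat.mul_le_mul_left _ e4
      _ = _ := by ring
  have hH : 0 < H := by
    by_contra h
    have h' : H = 0 := by omega
    rw [h', mul_zero] at f2
    exact absurd f2 (not_le.2 (by positivity))
  have hH' : (0 : ℝ) < H := by exact_mod_cast hH
  have g1 : (CB : ℝ) / H ≤ ((2 * (r + 1) * r ^ Nat.log 2 r : ℕ) : ℝ) / 2 ^ (r / 6) := by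
    rw [div_le_div_iff₀ hH' (by positivity)]
    exact_mod_cast f1
  have g2 : (((3 * r) ^ (r + 1) : ℕ) : ℝ) / H ≤
      (((3 * r) ^ (r + 1) * (2 * (r + 1).factorial) : ℕ) : ℝ) / 2 ^ (r ^ 2 / 6) := by
    rw [div_le_div_iff₀ hH' (by positivity)]
    have : (3 * r) ^ (r + 1) * 2 ^ (r ^ 2 / 6) ≤
        (3 * r) ^ (r + 1) * (2 * (r + 1).factorial) * H := by
      rw [mul_assoc]
      exact Nat.mul_le_mul_left _ f2
    exact_mod_cast this
  calc (Q : ℝ) / H ≤ ((CB + (3 * r) ^ (r + 1) : ℕ) : ℝ) / H := by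
        gcongr
    _ = (CB : ℝ) / H + (((3 * r) ^ (r + 1) : ℕ) : ℝ) / H := by
        rw [Nat.cast_add, add_div]
    _ ≤ _ := add_le_add g1 g2

end Pool.Agent.K6.H55.HQ
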