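import Pool.Agent.K6.H55.HQ.Stm

set_option autoImplicit false

open Filter

namespace Pool.Agent.K6.H55.HQ

namespace GOOD

theorem arith : ∃ r₀ : ℕ, ∀ r : ℕ, r₀ ≤ r → 2 * r ^ 3 * 3 ^ (r / 25) ≤ 4 ^ (r / 25) := by
  have h := tendsto_pow_const_mul_const_pow_of_abs_lt_one 3
    (show |(3 / 4 : ℝ)| < 1 by rw [abs_of_pos (by norm_num)]; norm_num)
  have h1 := h.eventually (gt_mem_nhds (show (0 : ℝ) < 3 / 125000 by norm_num))
  obtain ⟨k₀, hk⟩ := eventually_atTop.1 h1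
  refine ⟨25 * k₀, fun r hr => ?_⟩
  have hk0 : k₀ ≤ r / 25 + 1 := by omega
  have hr1 : r ≤ 25 * (r / 25 + 1) := by omega
  generalize r / 25 = k at hk0 hr1 ⊢
  have h2 := hk (k + 1) hk0
  have h3 : ((k + 1 : ℕ) : ℝ) ^ 3 * 3 ^ (k + 1) < 3 / 125000 * 4 ^ (k + 1) := by
    rw [div_pow, ← mul_div_assoc, div_lt_iff₀ (by positivity)] at h2
    exact h2
  have h4 : (r : ℝ) ≤ 25 * ((k + 1 : ℕ) : ℝ) := by exact_mod_cast hr1
  have h5 : (r : ℝ) ^ 3 ≤ (25 * ((k + 1 : ℕ) : ℝ)) ^ 3 := by gcongr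
  have h6 : (2 : ℝ) * (r : ℝ) ^ 3 * 3 ^ k ≤ 4 ^ k := by
    calc (2 : ℝ) * (r : ℝ) ^ 3 * 3 ^ k ≤ 2 * (25 * ((k + 1 : ℕ) : ℝ)) ^ 3 * 3 ^ k := by gcongr
      _ = 31250 / 3 * (((k + 1 : ℕ) : ℝ) ^ 3 * 3 ^ (k + 1)) := by rw [pow_succ 3 k]; ring
      _ ≤ 31250 / 3 * (3 / 125000 * 4 ^ (k + 1)) := by gcongr
      _ = 4 ^ k := by rw [pow_succ]; ring
  exact_mod_cast h6

end GOOD

open GOOD in
theorem t_GOOD (h : S_BAD) : S_GOOD := by
  obtain ⟨r₀, hr⟩ := arith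
  refine ⟨r₀, fun A _ _ hA => ?_⟩
  have : Fintype A := Fintype.ofFinite A
  have hb := hr _ hA
  have hbad := h A
  have hcard : Nat.card (Set (Orb A)) = 2 ^ Nat.card (Orb A) := by
    have : Fintype (Orb A) := Fintype.ofFinite _
    rw [Nat.card_eq_fintype_card, Nat.card_eq_fintype_card, Fintype.card_set]
  have hsplit := Set.ncard_add_ncard_compl {M : Set (Orb A) | Good M}
  rw [hcard] at hsplit
  have hsub : {M : Set (Orb A) | Good M}ᶜ ⊆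
      ⋃ p : A × A × A, {M : Set (Orb A) | ∀ w, ¬ (mk p.1 w ∈ M ∧ mk p.2.1 (p.2.2 * w) ∈ M)} := by
    intro M hM
    have hM : ¬ Good M := hM
    unfold Good at hM
    push Not at hM
    obtain ⟨x, y, t, hw⟩ := hM
    exact Set.mem_iUnion.2 ⟨(x, y, t), fun w hww => hw w hww.1 hww.2⟩
  have hle : {M : Set (Orb A) | Good M}ᶜ.ncard ≤
      ∑ p : A × A × A,
        {M : Set (Orb A) | ∀ w, ¬ (mk p.1 w ∈ M ∧ mk p.2.1 (p.2.2 * w) ∈ M)}.ncard :=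
    (Set.ncard_le_ncard hsub (Set.toFinite _)).trans (Set.ncard_iUnion_le_of_fintype _)
  have hsum : {M : Set (Orb A) | Good M}ᶜ.ncard * 4 ^ (Nat.card A / 25) ≤
      Nat.card A ^ 3 * (3 ^ (Nat.card A / 25) * 2 ^ Nat.card (Orb A)) := by
    calc {M : Set (Orb A) | Good M}ᶜ.ncard * 4 ^ (Nat.card A / 25)
        ≤ (∑ p : A × A × A,
          {M : Set (Orb A) | ∀ w, ¬ (mk p.1 w ∈ M ∧ mk p.2.1 (p.2.2 * w) ∈ M)}.ncard) *
            4 ^ (Nat.card A / 25) := Nat.mul_le_mul_right _ hle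
      _ = ∑ p : A × A × A,
          {M : Set (Orb A) | ∀ w, ¬ (mk p.1 w ∈ M ∧ mk p.2.1 (p.2.2 * w) ∈ M)}.ncard *
            4 ^ (Nat.card A / 25) := Finset.sum_mul _ _ _
      _ ≤ ∑ p : A × A × A, 3 ^ (Nat.card A / 25) * 2 ^ Nat.card (Orb A) :=
          Finset.sum_le_sum fun p _ => hbad p.1 p.2.1 p.2.2
      _ = Nat.card A ^ 3 * (3 ^ (Nat.card A / 25) * 2 ^ Nat.card (Orb A)) := by
          rw [Finset.sum_const, Finset.card_univ, Fintype.card_prod, Fintype.card_prod,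
            ← Nat.card_eq_fintype_card, smul_eq_mul]
          ring
  have hpos : 0 < 4 ^ (Nat.card A / 25) := by positivity
  have h2 : 2 * {M : Set (Orb A) | Good M}ᶜ.ncard ≤ 2 ^ Nat.card (Orb A) := by
    refine Nat.le_of_mul_le_mul_right ?_ hpos
    calc 2 * {M : Set (Orb A) | Good M}ᶜ.ncard * 4 ^ (Nat.card A / 25)
        = 2 * ({M : Set (Orb A) | Good M}ᶜ.ncard * 4 ^ (Nat.card A / 25)) := by ring
      _ ≤ 2 * (Nat.card A ^ 3 * (3 ^ (Nat.card A / 25) * 2 ^ Nat.card (Orb A))) :=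
          Nat.mul_le_mul_left _ hsum
      _ = (2 * Nat.card A ^ 3 * 3 ^ (Nat.card A / 25)) * 2 ^ Nat.card (Orb A) := by ring
      _ ≤ 4 ^ (Nat.card A / 25) * 2 ^ Nat.card (Orb A) := Nat.mul_le_mul_right _ hb
      _ = 2 ^ Nat.card (Orb A) * 4 ^ (Nat.card A / 25) := by ring
  omega

end Pool.Agent.K6.H55.HQ
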