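import Pool.Agent.K6.H55.HQ.Stm

/-!
# Greedy choice of independent pairs (helper66)
-/

set_option autoImplicit false

namespace Pool.Agent.K6.H55.HQ

theorem t_GRD : S_GRD := by
  classical
  intro Q W _ f g hf hg
  have := Fintype.ofFinite W
  have hf' : ∀ q, (Finset.univ.filter fun w => f w = q).card ≤ 6 := by
    intro q
    have h := hf q
    rwa [Set.ncard_eq_toFinset_card', Set.toFinset_ofPred] at h
  have hg' : ∀ q, (Finset.univ.filter fun w => g w = q).card ≤ 6 := by
    intro q
    have h := hg q
    rwa [Set.ncard_eq_toFinset_card', Set.toFinset_ofPred] at h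
  have key : ∀ (n : ℕ) (R : Finset W), R.card ≤ n → ∃ T ⊆ R, R.card ≤ 24 * T.card ∧
      ∀ s ∈ T, ∀ t ∈ T, s ≠ t → f s ≠ f t ∧ f s ≠ g t ∧ g s ≠ f t ∧ g s ≠ g t := by
    intro n
    induction n with
    | zero =>
      intro R hR
      exact ⟨∅, by simp, by simpa using hR, by simp⟩
    | succ n ih =>
      intro R hR
      rcases R.eq_empty_or_nonempty with rfl | ⟨w, hw⟩
      · exact ⟨∅, by simp, by simp, by simp⟩
      let D : Finset W := Finset.univ.filter fun s => f s = f w ∨ f s = g w ∨ g s = f w ∨ g s = g w
      have hD : ∀ s, s ∈ D ↔ (f s = f w ∨ f s = g w ∨ g s = f w ∨ g s = g w) := by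
        intro s
        simp [D]
      have hDc : D.card ≤ 24 := by
        have hsub : D ⊆ ((Finset.univ.filter fun s => f s = f w) ∪
            (Finset.univ.filter fun s => f s = g w)) ∪
            ((Finset.univ.filter fun s => g s = f w) ∪ (Finset.univ.filter fun s => g s = g w)) := by
          intro s hs
          have := (hD s).1 hs
          simp only [Finset.mem_union, Finset.mem_filter, Finset.mem_univ, true_and]
          tauto
        have h1 := Finset.card_le_card hsub
        have h2 := Finset.card_union_le ((Finset.univ.filter fun s => f s = f w) ∪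
            (Finset.univ.filter fun s => f s = g w))
            ((Finset.univ.filter fun s => g s = f w) ∪ (Finset.univ.filter fun s => g s = g w))
        have h3 := Finset.card_union_le (Finset.univ.filter fun s => f s = f w)
            (Finset.univ.filter fun s => f s = g w)
        have h4 := Finset.card_union_le (Finset.univ.filter fun s => g s = f w)
            (Finset.univ.filter fun s => g s = g w)
        have h5 := hf' (f w)
        have h6 := hf' (g w)
        have h7 := hg' (f w)
        have h8 := hg' (g w)
        omega
      have hwD : w ∈ D := (hD w).2 (Or.inl rfl)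
      have h1 : (R \ D).card ≤ n := by
        have h2 : R \ D ⊂ R := by
          refine Finset.ssubset_iff_subset_ne.2 ⟨Finset.sdiff_subset, fun h => ?_⟩
          rw [← h] at hw
          exact (Finset.mem_sdiff.1 hw).2 hwD
        have := Finset.card_lt_card h2
        omega
      obtain ⟨T, hTR, hTc, hT⟩ := ih (R \ D) h1
      have hTD : ∀ s ∈ T, s ∉ D := fun s h => (Finset.mem_sdiff.1 (hTR h)).2
      have hwT : w ∉ T := fun h => hTD w h hwD
      refine ⟨insert w T, ?_, ?_, ?_⟩
      · intro s hs
        rcases Finset.mem_insert.1 hs with rfl | hs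
        · exact hw
        · exact (Finset.mem_sdiff.1 (hTR hs)).1
      · rw [Finset.card_insert_of_notMem hwT]
        have h3 : R.card ≤ (R \ D).card + D.card := by
          have := Finset.le_card_sdiff D R
          omega
        omega
      · intro s hs0 t ht0 hst
        rcases Finset.mem_insert.1 hs0 with hs | hs
        · rcases Finset.mem_insert.1 ht0 with ht | ht
          · exact absurd (hs.trans ht.symm) hst
          · have h4 := mt (hD t).2 (hTD t ht)
            simp only [not_or] at h4
            rw [hs]
            exact ⟨fun h => h4.1 h.symm, fun h => h4.2.2.1 h.symm, fun h => h4.2.1 h.symm,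
              fun h => h4.2.2.2 h.symm⟩
        · rcases Finset.mem_insert.1 ht0 with ht | ht
          · have h4 := mt (hD s).2 (hTD s hs)
            simp only [not_or] at h4
            rw [ht]
            exact h4
          · exact hT s hs t ht hst
  obtain ⟨T, -, hTc, hT⟩ := key _ Finset.univ le_rfl
  refine ⟨T, ?_, hT⟩
  rw [Finset.card_univ, ← Nat.card_eq_fintype_card] at hTc
  omega

end Pool.Agent.K6.H55.HQ
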