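import Pool.Agent.K6.H55.HQ.Stm

set_option autoImplicit false

/-! Piece GRP (helper1 for helper55). -/

namespace Pool.Agent.K6.H55.HQ

theorem t_GRP : S_GRP := by
  classical
  rintro r m ⟨⟨u, hu, hone⟩, hc, ha, h0, hnz, hinv⟩
  have hb : ∀ a : U r, ∃ b : U r, m a.1 b.1 = u := by
    intro a
    obtain ⟨b, hb⟩ := hinv a.1 a.2
    have h1 : m (m a.1 b) u = u := hb u
    have h2 : m a.1 b = u := by
      rw [hc, hone] at h1
      exact h1
    refine ⟨⟨b, ?_⟩, h2⟩
    rintro rfl
    rw [hc, h0] at h2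
    exact hu h2.symm
  choose inv hinv' using hb
  let G : CommGroup (U r) :=
    { mul := fun a b => ⟨m a.1 b.1, hnz _ _ a.2 b.2⟩
      one := ⟨u, hu⟩
      inv := inv
      mul_assoc := fun a b c => Subtype.ext (ha _ _ _)
      one_mul := fun a => Subtype.ext (hone _)
      mul_one := fun a => Subtype.ext ((hc _ _).trans (hone _))
      inv_mul_cancel := fun a => Subtype.ext ((hc _ _).trans (hinv' a))
      mul_comm := fun a b => Subtype.ext (hc _ _) }
  exact ⟨G, fun a b => rfl⟩

end Pool.Agent.K6.H55.HQ
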