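import Pool.Agent.K6.H55.HQ.Stm

/-!
# Piece INV: the axioms are invariant under isomorphisms which fix `0` (helper35)
-/

set_option autoImplicit false

namespace Pool.Agent.K6.H55.HQ

theorem t_INV : S_INV := by
  rintro r p q ⟨e, h0, h⟩
  have hm : ∀ a b, q.1 (e a) (e b) = e (p.1 a b) := fun a b => (h a b).1.symm
  have hh : ∀ a b, q.2 (e a) (e b) = e '' p.2 a b := fun a b => (h a b).2.symm
  have mem : ∀ x a b, e x ∈ q.2 (e a) (e b) ↔ x ∈ p.2 a b := by
    intro x a b
    rw [hh]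
    exact e.injective.mem_set_image
  have mem0 : ∀ a b, (0 : Fin (r+1)) ∈ q.2 (e a) (e b) ↔ (0 : Fin (r+1)) ∈ p.2 a b := by
    intro a b
    have := mem 0 a b
    rwa [h0] at this
  have ne0 : ∀ a, e a ≠ 0 ↔ a ≠ 0 := by
    intro a
    constructor
    · intro h1 h2
      exact h1 (by rw [h2, h0])
    · intro h1 h2
      exact h1 (e.injective (by rw [h2, h0]))
  have hs := e.surjective
  constructor
  · rintro ⟨⟨u, hu0, hu⟩, p2, p3, p4, p5, p6, p7, p8, p9, p10, p11, p12, p13⟩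
    refine ⟨⟨e u, (ne0 u).2 hu0, ?_⟩, ?_, ?_, ?_, ?_, ?_, ?_, ?_, ?_, ?_, ?_, ?_, ?_⟩
    · rw [hs.forall]
      intro a
      rw [hm, hu]
    · rw [hs.forall₂]
      intro a b
      rw [hm, hm, p2]
    · rw [hs.forall₃]
      intro a b c
      rw [hm, hm, hm, hm, p3]
    · rw [hs.forall]
      intro a
      rw [← h0, hm, p4]
    · rw [hs.forall₂]
      intro a b ha hb
      rw [hm]
      exact (ne0 _).2 (p5 a b ((ne0 a).1 ha) ((ne0 b).1 hb))
    · rw [hs.forall]
      intro a ha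
      obtain ⟨b, hb⟩ := p6 a ((ne0 a).1 ha)
      refine ⟨e b, ?_⟩
      rw [hs.forall]
      intro c
      rw [hm, hm, hb]
    · rw [hs.forall₂]
      intro a b
      rw [hh]
      exact (p7 a b).image e
    · rw [hs.forall₂]
      intro a b
      rw [hh, hh, p8]
    · rw [hs.forall₃]
      intro a b c
      ext z
      obtain ⟨z, rfl⟩ := hs z
      have h9 := Set.ext_iff.1 (p9 a b c) z
      simp only [Set.mem_iUnion, exists_prop] at h9 ⊢
      constructor
      · rintro ⟨x, hx1, hx2⟩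
        obtain ⟨x, rfl⟩ := hs x
        rw [mem] at hx1 hx2
        obtain ⟨y, hy1, hy2⟩ := h9.1 ⟨x, hx1, hx2⟩
        exact ⟨e y, (mem _ _ _).2 hy1, (mem _ _ _).2 hy2⟩
      · rintro ⟨x, hx1, hx2⟩
        obtain ⟨x, rfl⟩ := hs x
        rw [mem] at hx1 hx2
        obtain ⟨y, hy1, hy2⟩ := h9.2 ⟨x, hx1, hx2⟩
        exact ⟨e y, (mem _ _ _).2 hy1, (mem _ _ _).2 hy2⟩
    · rw [hs.forall]
      intro a
      have h1 := hh 0 a
      rw [h0] at h1
      rw [h1, p10, Set.image_singleton]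
    · rw [hs.forall]
      intro a
      obtain ⟨b, hb, hb'⟩ := p11 a
      refine ⟨e b, (mem0 a b).2 hb, ?_⟩
      intro y
      obtain ⟨y, rfl⟩ := hs y
      intro hy
      rw [hb' y ((mem0 a y).1 hy)]
    · intro a b c d
      obtain ⟨a, rfl⟩ := hs a
      obtain ⟨b, rfl⟩ := hs b
      obtain ⟨c, rfl⟩ := hs c
      obtain ⟨d, rfl⟩ := hs d
      rw [mem, mem0, mem]
      exact p12 a b c d
    · rw [hs.forall₃]
      intro a b c
      rw [hh, hm, hm, hh, ← p13, Set.image_image, Set.image_image]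
      exact Set.image_congr fun x _ => hm a x
  · rintro ⟨u, ε, hu0, hu, hc⟩
    refine ⟨e u, e ε, (ne0 u).2 hu0, ?_, ?_⟩
    · rw [hs.forall]
      intro a
      rw [hm, hu]
    · rw [hs.forall]
      intro c
      rw [mem]
      exact hc c

end Pool.Agent.K6.H55.HQ
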