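import Mathlib
import Pool.Agent.K6.H55.HQ.Stm

/-!
# Piece ISO
-/

set_option autoImplicit false

namespace Pool.Agent.K6.H55.HQ

theorem t_ISO : S_ISO := by
  intro r
  refine ⟨fun p => ⟨Equiv.refl _, fun a b => ⟨rfl, by simp⟩⟩, ?_, ?_⟩
  · rintro p q ⟨e, he⟩
    refine ⟨e.symm, fun a b => ?_⟩
    have h := he (e.symm a) (e.symm b)
    rw [e.apply_symm_apply, e.apply_symm_apply] at h
    constructor
    · rw [← h.1, e.symm_apply_apply]
    · rw [← h.2, e.symm_image_image]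
  · rintro p q s ⟨e, he⟩ ⟨e', he'⟩
    refine ⟨e.trans e', fun a b => ?_⟩
    constructor
    · show e' (e (p.1 a b)) = s.1 (e' (e a)) (e' (e b))
      rw [(he a b).1, (he' (e a) (e b)).1]
    · show (e' ∘ e) '' p.2 a b = s.2 (e' (e a)) (e' (e b))
      rw [Set.image_comp, (he a b).2, (he' (e a) (e b)).2]

end Pool.Agent.K6.H55.HQ
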