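import Pool.Agent.K6.H55.HQ.Stm

/-!
# Piece ISOF: quotients of finite fields of the same order with the same number of classes are
isomorphic
-/

set_option autoImplicit false

namespace Pool.Agent.K6.H55.HQ

namespace ISOF

section one

variable {r : ℕ} {p : Str r} {K : Type} [Field K] {G : Subgroup Kˣ} {f : K → Fin (r+1)}

theorem f_ne_zero (h : Rep p K G f) (u : Kˣ) : f u ≠ 0 := by
  intro h0
  rw [← h.2.1] at h0
  obtain ⟨g, _, hg⟩ := (h.2.2.1 _ _).1 h0
  exact (mul_ne_zero u.ne_zero g.ne_zero) hg.symm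

theorem index_eq (h : Rep p K G f) : G.index = r := by
  let F : Kˣ → U r := fun u => ⟨f u, f_ne_zero h u⟩
  have hF : ∀ a b : Kˣ, F a = F b ↔ a⁻¹ * b ∈ G := by
    intro a b
    have h1 : F a = F b ↔ f a = f b := Subtype.ext_iff
    rw [h1, h.2.2.1]
    constructor
    · rintro ⟨g, hg, hgb⟩
      have h2 : b = a * g := Units.ext (by rw [Units.val_mul]; exact hgb)
      rw [h2, inv_mul_cancel_left]
      exact hg
    · intro hab
      refine ⟨a⁻¹ * b, hab, ?_⟩
      rw [← Units.val_mul, mul_inv_cancel_left]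
  let e : (Kˣ ⧸ G) → U r := fun q => Quotient.liftOn' q F
    (fun a b hab => (hF a b).2 (QuotientGroup.leftRel_apply.1 hab))
  have he : Function.Bijective e := by
    constructor
    · intro q q'
      induction q using QuotientGroup.induction_on with
      | H a =>
        induction q' using QuotientGroup.induction_on with
        | H b =>
          intro hab
          have h2 : F a = F b := hab
          exact QuotientGroup.eq.2 ((hF a b).1 h2)
    · rintro ⟨a, ha⟩
      obtain ⟨x, rfl⟩ := h.1 a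
      have hx : x ≠ 0 := by
        intro h0
        rw [h0] at ha
        exact ha h.2.1
      exact ⟨QuotientGroup.mk (Units.mk0 x hx), rfl⟩
  have h3 : Nat.card (Kˣ ⧸ G) = Nat.card (U r) := Nat.card_congr (Equiv.ofBijective e he)
  have h4 : Nat.card (U r) = r := by
    rw [Nat.card_eq_fintype_card, Fintype.card_subtype_compl, Fintype.card_fin,
      Fintype.card_unique]
    omega
  rw [Subgroup.index, h3, h4]

end one

theorem ncard_pow {C : Type} [CommGroup C] [IsCyclic C] [Finite C] (n : ℕ) (hn : 0 < n) :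
    {x : C | x ^ n = 1}.ncard ≤ n := by
  classical
  have : Fintype C := Fintype.ofFinite C
  have h1 := IsCyclic.card_pow_eq_one_le (α := C) hn
  have h2 : {x : C | x ^ n = 1} = ((Finset.univ.filter fun x : C => x ^ n = 1 : Finset C) : Set C) := by
    ext x; simp
  rw [h2, Set.ncard_coe_finset]
  exact h1

theorem sub_eq {C : Type} [CommGroup C] [IsCyclic C] [Finite C] (H H' : Subgroup C)
    (h : Nat.card H = Nat.card H') : H = H' := by
  have key : ∀ L : Subgroup C, (L : Set C) = {x : C | x ^ (Nat.card L) = 1} := by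
    intro L
    refine Set.eq_of_subset_of_ncard_le ?_ ?_ (Set.toFinite _)
    · intro x hx
      have h1 : (⟨x, hx⟩ : L) ^ (Nat.card L) = 1 := pow_card_eq_one'
      have h2 : (((⟨x, hx⟩ : L) ^ (Nat.card L) : L) : C) = ((1 : L) : C) := congrArg _ h1
      rw [Subgroup.coe_pow] at h2
      exact h2
    · have h3 : (L : Set C).ncard = Nat.card L := (Nat.card_coe_set_eq _).symm
      rw [h3]
      exact ncard_pow _ Nat.card_pos
  have h1 : (H : Set C) = H' := by rw [key H, key H', h]
  exact SetLike.coe_injective h1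

end ISOF

open ISOF in
theorem t_ISOF : S_ISOF := by
  classical
  intro r p p' K K' _ _ _ _ G G' f f' hcard hR hR'
  have : Fintype K := Fintype.ofFinite K
  have : Fintype K' := Fintype.ofFinite K'
  have hc : Fintype.card K = Fintype.card K' := by
    rw [← Nat.card_eq_fintype_card, ← Nat.card_eq_fintype_card]; exact hcard
  let φ : K ≃+* K' := FiniteField.ringEquivOfCardEq hc
  let ψ : Kˣ ≃* K'ˣ := Units.mapEquiv φ.toMulEquiv
  have hψ : ∀ u : Kˣ, ((ψ u : K'ˣ) : K') = φ (u : K) := fun u => rfl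
  have hr : 0 < r := by
    rcases Nat.eq_zero_or_pos r with h0 | h0
    · exfalso
      subst h0
      have h1 := f_ne_zero hR (1 : Kˣ)
      exact h1 (Fin.ext (by omega))
    · exact h0
  -- the subgroups correspond
  have hG : G.map ψ.toMonoidHom = G' := by
    apply sub_eq
    have i1 : (G.map ψ.toMonoidHom).index = r := by
      rw [← index_eq hR]
      exact Subgroup.index_map_equiv G ψ
    have i2 : G'.index = r := index_eq hR'
    have c1 := (G.map ψ.toMonoidHom).card_mul_index
    have c2 := G'.card_mul_index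
    rw [i1] at c1
    rw [i2, ← c1] at c2
    exact (Nat.eq_of_mul_eq_mul_right hr c2).symm
  have hmem : ∀ g ∈ G, ψ g ∈ G' := by
    intro g hg
    rw [← hG]
    exact ⟨g, hg, rfl⟩
  have hmem' : ∀ g' ∈ G', ∃ g ∈ G, ψ g = g' := by
    intro g' hg'
    rw [← hG] at hg'
    exact hg'
  -- the bijection
  have hwd : ∀ x y : K, f x = f y ↔ f' (φ x) = f' (φ y) := by
    intro x y
    rw [hR.2.2.1, hR'.2.2.1]
    constructor
    · rintro ⟨g, hg, rfl⟩
      exact ⟨ψ g, hmem g hg, by rw [map_mul, hψ]⟩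
    · rintro ⟨g', hg', hy⟩
      obtain ⟨g, hg, rfl⟩ := hmem' g' hg'
      refine ⟨g, hg, φ.injective ?_⟩
      rw [hy, map_mul, hψ]
  let s : Fin (r+1) → K := Function.surjInv hR.1
  have hs : ∀ a, f (s a) = a := Function.surjInv_eq hR.1
  let e0 : Fin (r+1) → Fin (r+1) := fun a => f' (φ (s a))
  have he0 : ∀ x, e0 (f x) = f' (φ x) := fun x => (hwd _ _).1 (hs (f x))
  have hinj : Function.Injective e0 := by
    intro a b hab
    have h1 := (hwd (s a) (s b)).2 hab
    rw [hs, hs] at h1
    exact h1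
  let e : Fin (r+1) ≃ Fin (r+1) := Equiv.ofBijective e0 (Finite.injective_iff_bijective.1 hinj)
  have he : ∀ x, e (f x) = f' (φ x) := he0
  refine ⟨e, ?_⟩
  intro a b
  obtain ⟨x, rfl⟩ := hR.1 a
  obtain ⟨y, rfl⟩ := hR.1 b
  constructor
  · rw [← hR.2.2.2.1, he, he, he, map_mul, hR'.2.2.2.1]
  · rw [he, he, hR.2.2.2.2, hR'.2.2.2.2]
    ext z
    constructor
    · rintro ⟨w, ⟨g, hg, h, hh, rfl⟩, rfl⟩
      refine ⟨ψ g, hmem g hg, ψ h, hmem h hh, ?_⟩
      rw [he, map_add, map_mul, map_mul, hψ, hψ]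
    · rintro ⟨g', hg', h', hh', rfl⟩
      obtain ⟨g, hg, rfl⟩ := hmem' g' hg'
      obtain ⟨h, hh, rfl⟩ := hmem' h' hh'
      refine ⟨_, ⟨g, hg, h, hh, rfl⟩, ?_⟩
      rw [he, map_add, map_mul, map_mul, hψ, hψ]

end Pool.Agent.K6.H55.HQ
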