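import Pool.Agent.K6.H55.HQ.Stm

/-!
# LABA: the number of labelled hyperfields is at most `(r + 1)!` times the number of classes
-/

set_option autoImplicit false

namespace Pool.Agent.K6.H55.HQ

namespace LABA

/-- transport of structure -/
def tr {r : ℕ} (p : Str r) (e : Equiv.Perm (Fin (r+1))) : Str r :=
  (fun a b => e (p.1 (e.symm a) (e.symm b)), fun a b => e '' p.2 (e.symm a) (e.symm b))

lemma eq_tr {r : ℕ} {p q : Str r} (h : Iso p q) : ∃ e : Equiv.Perm (Fin (r+1)), tr p e = q := by
  obtain ⟨e, he⟩ := h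
  refine ⟨e, ?_⟩
  refine Prod.ext ?_ ?_
  · funext a b
    have := (he (e.symm a) (e.symm b)).1
    simpa [tr] using this
  · funext a b
    have := (he (e.symm a) (e.symm b)).2
    simpa [tr] using this

end LABA

open LABA in
theorem t_LABA (h : S_ISO) : S_LABA := by
  intro r
  classical
  have : Fintype (Str r) := Fintype.ofFinite _
  set S : Finset (Str r) := Finset.univ.filter (fun p => IsHF p) with hS
  have e1 : {p : Str r | IsHF p}.ncard = S.card := by
    rw [← Set.ncard_coe_finset]
    congr 1
    ext p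
    simp [hS]
  let f : Str r → Set (Str r) := fun p => {q | IsHF q ∧ Iso p q}
  have e2 : (classes (IsHF (r := r))).ncard = (S.image f).card := by
    rw [← Set.ncard_coe_finset]
    congr 1
    ext C
    simp only [classes, Finset.coe_image, Set.mem_image, Finset.mem_coe, hS, Finset.mem_filter,
      Finset.mem_univ, true_and, Set.mem_ofPred_eq, f]
    constructor
    · rintro ⟨p, hp, rfl⟩
      exact ⟨p, hp, rfl⟩
    · rintro ⟨p, hp, rfl⟩
      exact ⟨p, hp, rfl⟩
  rw [e1, e2]
  refine Finset.card_le_mul_card_image S _ ?_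
  intro C hC
  obtain ⟨p, hp, rfl⟩ := Finset.mem_image.1 hC
  have hsub : S.filter (fun x => f x = f p) ⊆
      (Finset.univ : Finset (Equiv.Perm (Fin (r+1)))).image (fun e => tr p e) := by
    intro q hq
    obtain ⟨hq1, hq2⟩ := Finset.mem_filter.1 hq
    have hqq : q ∈ f q := ⟨(Finset.mem_filter.1 hq1).2, (h r).refl q⟩
    rw [hq2] at hqq
    obtain ⟨e, he⟩ := eq_tr hqq.2
    exact Finset.mem_image.2 ⟨e, Finset.mem_univ _, he⟩
  calc (S.filter (fun x => f x = f p)).card
      ≤ ((Finset.univ : Finset (Equiv.Perm (Fin (r+1)))).image (fun e => tr p e)).card :=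
        Finset.card_le_card hsub
    _ ≤ (Finset.univ : Finset (Equiv.Perm (Fin (r+1)))).card := Finset.card_image_le
    _ = (r + 1).factorial := by
        rw [Finset.card_univ, Fintype.card_perm, Fintype.card_fin]

end Pool.Agent.K6.H55.HQ
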