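import Pool.Agent.K6.H55.HQ.Stm

/-!
# Piece LABB (helper69)

The number of isomorphism classes times `r!` is at most `r ^ log₂ r` times the number of labelled structures.
-/

set_option autoImplicit false

namespace Pool.Agent.K6.H55.HQ

namespace LABB

variable {r : ℕ}

/-- the transport of a structure along a permutation -/
def tr (p : Str r) (e : Equiv.Perm (Fin (r+1))) : Str r :=
  (fun a b => e (p.1 (e.symm a) (e.symm b)), fun a b => e '' p.2 (e.symm a) (e.symm b))

theorem tr_iso (p : Str r) (e : Equiv.Perm (Fin (r+1))) (a b : Fin (r+1)) :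
    e (p.1 a b) = (tr p e).1 (e a) (e b) ∧ e '' p.2 a b = (tr p e).2 (e a) (e b) := by
  simp [tr]

/-- the automorphisms of the multiplication -/
theorem autcount (h2 : S_GRP) (h3 : S_AUT) (m : Fin (r+1) → Fin (r+1) → Fin (r+1)) (hm : MOK m) :
    {g : Equiv.Perm (Fin (r+1)) | g 0 = 0 ∧ ∀ a b, g (m a b) = m (g a) (g b)}.ncard ≤
      r ^ Nat.log 2 r := by
  classical
  obtain ⟨inst, hmul⟩ := h2 r m hm
  have hcard : Nat.card (U r) = r := by
    rw [Nat.card_eq_fintype_card]
    simp [U]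
  have h4 := h3 (U r)
  rw [hcard] at h4
  refine le_trans ?_ h4
  rw [← Nat.card_coe_set_eq]
  have hne : ∀ (g : Equiv.Perm (Fin (r+1))), g 0 = 0 → ∀ a : Fin (r+1), a ≠ 0 → g a ≠ 0 := by
    intro g hg a ha h
    apply ha
    apply g.injective
    rw [h, hg]
  have hne' : ∀ (g : Equiv.Perm (Fin (r+1))), g 0 = 0 → ∀ a : Fin (r+1), a ≠ 0 → g.symm a ≠ 0 := by
    intro g hg a ha h
    apply ha
    rw [← g.apply_symm_apply a, h, hg]
  let Φ : {g : Equiv.Perm (Fin (r+1)) | g 0 = 0 ∧ ∀ a b, g (m a b) = m (g a) (g b)} →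
      (U r ≃* U r) := fun g =>
    { toFun := fun a => ⟨g.1 a.1, hne g.1 g.2.1 a.1 a.2⟩
      invFun := fun a => ⟨g.1.symm a.1, hne' g.1 g.2.1 a.1 a.2⟩
      left_inv := fun a => Subtype.ext (by simp)
      right_inv := fun a => Subtype.ext (by simp)
      map_mul' := fun a b => Subtype.ext (by
        show g.1 (a * b).1 = _
        rw [hmul, hmul]
        exact g.2.2 _ _) }
  apply Nat.card_le_card_of_injective Φ
  intro g g' h
  apply Subtype.ext
  ext1 a
  by_cases ha : a = 0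
  · rw [ha, g.2.1, g'.2.1]
  · have h5 : Φ g ⟨a, ha⟩ = Φ g' ⟨a, ha⟩ := by rw [h]
    exact congrArg Subtype.val h5

theorem fibre (h2 : S_GRP) (h3 : S_AUT) (p : Str r) (hp : IsHF p) (q : Str r) :
    ((Finset.univ : Finset (Equiv.Perm (Fin r))).filter
      (fun e => tr p (Equiv.Perm.decomposeFin.symm (0, e)) = q)).card ≤ r ^ Nat.log 2 r := by
  classical
  rcases Finset.eq_empty_or_nonempty ((Finset.univ : Finset (Equiv.Perm (Fin r))).filter
      (fun e => tr p (Equiv.Perm.decomposeFin.symm (0, e)) = q)) with h | ⟨e0, he0⟩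
  · rw [h]
    simp
  · rw [Finset.mem_filter] at he0
    have hm : MOK p.1 := ⟨hp.1, hp.2.1, hp.2.2.1, hp.2.2.2.1, hp.2.2.2.2.1, hp.2.2.2.2.2.1⟩
    refine le_trans ?_ (autcount h2 h3 p.1 hm)
    rw [← Set.ncard_coe_finset]
    obtain ⟨g0, hg0⟩ : ∃ g0 : Equiv.Perm (Fin (r+1)), g0 = Equiv.Perm.decomposeFin.symm (0, e0) := ⟨_, rfl⟩
    have hz : ∀ e : Equiv.Perm (Fin r), (Equiv.Perm.decomposeFin.symm (0, e)) 0 = (0 : Fin (r+1)) := by
      intro e
      simp
    refine Set.ncard_le_ncard_of_injOn (fun e => g0⁻¹ * Equiv.Perm.decomposeFin.symm (0, e)) ?_ ?_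
      (Set.toFinite _)
    · intro e he
      rw [Finset.mem_coe, Finset.mem_filter] at he
      have heq : tr p (Equiv.Perm.decomposeFin.symm (0, e)) = tr p g0 := by
        rw [he.2, hg0, he0.2]
      obtain ⟨g, hg⟩ : ∃ g : Equiv.Perm (Fin (r+1)), g = Equiv.Perm.decomposeFin.symm (0, e) :=
        ⟨_, rfl⟩
      rw [← hg] at heq
      show g0⁻¹ * Equiv.Perm.decomposeFin.symm (0, e) ∈ _
      rw [← hg]
      refine ⟨?_, ?_⟩
      · have e1 : g 0 = 0 := by rw [hg]; exact hz e
        have e2 : g0 0 = 0 := by rw [hg0]; exact hz e0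
        rw [Equiv.Perm.mul_apply, e1, Equiv.Perm.inv_eq_iff_eq, e2]
      · intro a b
        have e1 := (tr_iso p g a b).1
        rw [heq] at e1
        rw [Equiv.Perm.mul_apply, Equiv.Perm.mul_apply, Equiv.Perm.mul_apply, e1,
          Equiv.Perm.inv_eq_iff_eq]
        rfl
    · intro e _ e' _ h
      have h1 := mul_left_cancel h
      have h2 := Equiv.Perm.decomposeFin.symm.injective h1
      exact (Prod.mk.inj h2).2

end LABB

theorem t_LABB (h1 : S_ISO) (h2 : S_GRP) (h3 : S_AUT) : S_LABB := by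
  intro r P _ hP hI
  classical
  have := Fintype.ofFinite (Str r)
  obtain ⟨X, hX⟩ : ∃ X : Finset (Str r), X = Finset.univ.filter P := ⟨_, rfl⟩
  obtain ⟨cl, hcl⟩ : ∃ cl : Str r → Set (Str r), cl = fun p => {q | P q ∧ Iso p q} := ⟨_, rfl⟩
  have e1 : classes P = ((X.image cl : Finset (Set (Str r))) : Set (Set (Str r))) := by
    ext C
    simp only [classes, Set.mem_ofPred_eq, Finset.coe_image, Set.mem_image, Finset.mem_coe, hX,
      Finset.mem_filter, Finset.mem_univ, true_and, hcl]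
    constructor
    · rintro ⟨p, hp, rfl⟩
      exact ⟨p, hp, rfl⟩
    · rintro ⟨p, hp, rfl⟩
      exact ⟨p, hp, rfl⟩
  have e2 : {p : Str r | P p}.ncard = X.card := by
    rw [← Set.ncard_coe_finset, hX]
    congr 1
    ext p
    simp
  rw [e1, Set.ncard_coe_finset, e2, Finset.card_eq_sum_card_image cl X, Finset.mul_sum]
  have h5 : ∀ C ∈ X.image cl, r.factorial ≤ r ^ Nat.log 2 r * (X.filter (fun p => cl p = C)).card := by
    intro C hC
    obtain ⟨p, hp, rfl⟩ := Finset.mem_image.1 hC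
    have hPp : P p := by
      rw [hX, Finset.mem_filter] at hp
      exact hp.2
    obtain ⟨T, hT⟩ : ∃ T : Equiv.Perm (Fin r) → Str r,
      T = fun e => LABB.tr p (Equiv.Perm.decomposeFin.symm (0, e)) := ⟨_, rfl⟩
    have h6 := Finset.card_le_mul_card_image (f := T) (Finset.univ : Finset (Equiv.Perm (Fin r)))
      (r ^ Nat.log 2 r) (fun q _ => by rw [hT]; exact LABB.fibre h2 h3 p (hP p hPp) q)
    rw [Finset.card_univ, Fintype.card_perm, Fintype.card_fin] at h6
    refine h6.trans (Nat.mul_le_mul_left _ (Finset.card_le_card ?_))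
    intro q hq
    obtain ⟨e, _, rfl⟩ := Finset.mem_image.1 hq
    have hi0 : Iso0 p (T e) := by
      rw [hT]
      exact ⟨Equiv.Perm.decomposeFin.symm (0, e), by simp, LABB.tr_iso p _⟩
    have hi : Iso p (T e) := by
      obtain ⟨g, _, hg⟩ := hi0
      exact ⟨g, hg⟩
    have hPT : P (T e) := hI p _ hPp hi0
    rw [Finset.mem_filter, hX, Finset.mem_filter]
    refine ⟨⟨Finset.mem_univ _, hPT⟩, ?_⟩
    rw [hcl]
    ext q
    simp only [Set.mem_ofPred_eq]
    constructor
    · rintro ⟨a, b⟩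
      exact ⟨a, (h1 r).trans hi b⟩
    · rintro ⟨a, b⟩
      exact ⟨a, (h1 r).trans ((h1 r).symm hi) b⟩
  calc (X.image cl).card * r.factorial = ∑ C ∈ X.image cl, r.factorial := by
        rw [Finset.sum_const, smul_eq_mul]
    _ ≤ _ := Finset.sum_le_sum h5

end Pool.Agent.K6.H55.HQ
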