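import Pool.Agent.K6.H55.HQ.Stm

set_option autoImplicit false

/-! Piece MTON (helper1 for helper55). -/

namespace Pool.Agent.K6.H55.HQ

theorem t_MTON (h : S_AXO) : S_MTON := by
  intro r m _ hm hmul ε hε
  refine Set.ncard_le_ncard_of_injOn (fun M => hypOf ε M) ?_ ?_ (Set.toFinite _)
  · intro M hM
    exact ⟨h r m hm hmul ε M hε hM, (hyp_zero_mem ε M 1 ε).2 (by simp)⟩
  · intro M _ M' _ hMM
    have key : ∀ (M : Set (Orb (U r))) (x y : U r),
        mk x y ∈ M ↔ (ε * y).1 ∈ hypOf ε M (1 : U r).1 x.1 := by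
      intro M x y
      rw [hyp_mem]
      have e1 : (1 : U r)⁻¹ * x = x := by simp
      have e2 : (1 : U r)⁻¹ * (ε * (ε * y)) = y := by
        rw [inv_one, one_mul, ← mul_assoc, hε, one_mul]
      rw [e1, e2]
    ext q
    induction q using Quotient.inductionOn with
    | h p =>
      obtain ⟨x, y⟩ := p
      change mk x y ∈ M ↔ mk x y ∈ M'
      rw [key, key]
      have : hypOf ε M = hypOf ε M' := hMM
      rw [this]

end Pool.Agent.K6.H55.HQ
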