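import Pool.Agent.K6.H55.HQ.Stm

/-!
# Piece NTOM: from hyperfields with `1 ⊞ ε = everything` to sets of orbits (helper21, for helper55)
-/

set_option autoImplicit false

namespace Pool.Agent.K6.H55.HQ.NTOM

variable {r : ℕ} {m : Fin (r+1) → Fin (r+1) → Fin (r+1)} [CommGroup (U r)]

/-- the relation `[a : b : c] ∈ N` -/
def T (ε : U r) (h : Hyp r) (a b c : U r) : Prop := (ε * c).1 ∈ h a.1 b.1

/-- the set of the orbits -/
def NN (ε : U r) (h : Hyp r) : Set (Orb (U r)) := {q | ∃ x y, q = mk x y ∧ T ε h 1 x y}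

section

variable (hm : MOK m) (hmul : ∀ a b : U r, (a * b).1 = m a.1 b.1) {ε : U r} {h : Hyp r}
  (hh : IsHF (m, h)) (hf : ∀ c, c ∈ h (1 : U r).1 ε.1)

include hmul hh

lemma scale0 (t a b : U r) {c : Fin (r+1)} (hc : c ∈ h a.1 b.1) :
    m t.1 c ∈ h (t * a).1 (t * b).1 := by
  obtain ⟨-, -, -, -, -, -, -, -, -, -, -, -, hdist⟩ := hh
  have h1 := hdist t.1 a.1 b.1
  rw [hmul, hmul]
  change _ ∈ (m, h).2 (m t.1 a.1) (m t.1 b.1)
  rw [← h1]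
  exact ⟨c, hc, rfl⟩

lemma scale (t a b c : U r) (hc : c.1 ∈ h a.1 b.1) : (t * c).1 ∈ h (t * a).1 (t * b).1 := by
  rw [hmul t c]
  exact scale0 hmul hh t a b hc

omit hmul in
lemma comm (a b : Fin (r+1)) : h a b = h b a := by
  obtain ⟨-, -, -, -, -, -, -, hc, -⟩ := hh
  exact hc a b

omit hmul in
lemma m_zero (a : Fin (r+1)) : m a 0 = 0 := by
  obtain ⟨-, h1, -, h2, -⟩ := hh
  have h3 := h1 a 0
  have h4 := h2 a
  simp only at h3 h4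
  rw [h3, h4]

omit hmul in
lemma uniq {a b b' : Fin (r+1)} (h1 : (0 : Fin (r+1)) ∈ h a b) (h2 : (0 : Fin (r+1)) ∈ h a b') :
    b = b' := by
  obtain ⟨-, -, -, -, -, -, -, -, -, -, hu, -⟩ := hh
  exact (hu a).unique h1 h2

include hf

lemma zero_mem (a : U r) : (0 : Fin (r+1)) ∈ h a.1 (ε * a).1 := by
  have h1 := scale0 hmul hh a 1 ε (hf 0)
  rw [m_zero hh, mul_one, mul_comm a ε] at h1
  exact h1

lemma sq : ε * ε = 1 := by
  have h1 := zero_mem hmul hh hf ε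
  have h2 : (0 : Fin (r+1)) ∈ h ε.1 (1 : U r).1 := by
    rw [comm hh]
    exact hf 0
  exact Subtype.ext (uniq hh h1 h2)

lemma zero_iff (a b : U r) : (0 : Fin (r+1)) ∈ h a.1 b.1 ↔ b = ε * a := by
  constructor
  · intro h1
    exact Subtype.ext (uniq hh h1 (zero_mem hmul hh hf a))
  · rintro rfl
    exact zero_mem hmul hh hf a

omit hf in
lemma T_scale1 (t a b c : U r) (h1 : T ε h a b c) : T ε h (t * a) (t * b) (t * c) := by
  unfold T at h1 ⊢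
  have h2 := scale hmul hh t a b (ε * c) h1
  rwa [mul_left_comm] at h2

omit hf in
lemma T_scale (t a b c : U r) : T ε h (t * a) (t * b) (t * c) ↔ T ε h a b c := by
  refine ⟨fun h1 => ?_, T_scale1 hmul hh t a b c⟩
  have h2 := T_scale1 hmul hh t⁻¹ _ _ _ h1
  rwa [inv_mul_cancel_left, inv_mul_cancel_left, inv_mul_cancel_left] at h2

omit hf hmul in
lemma T12 {a b c : U r} (h1 : T ε h a b c) : T ε h b a c := by
  unfold T at h1 ⊢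
  rwa [comm hh]

lemma T23 {a b c : U r} (h1 : T ε h a b c) : T ε h a c b := by
  have hrev := hh.2.2.2.2.2.2.2.2.2.2.2.1
  have h2 : b.1 ∈ h (ε * c).1 (ε * a).1 := hrev _ _ _ _ h1 (zero_mem hmul hh hf a)
  have h3 := scale hmul hh ε _ _ _ h2
  rw [← mul_assoc, ← mul_assoc, sq hmul hh hf, one_mul, one_mul, comm hh] at h3
  exact h3

lemma T_perm (z : Fin 3 → U r) (σ : Equiv.Perm (Fin 3)) (h1 : T ε h (z 0) (z 1) (z 2)) :
    T ε h (z (σ 0)) (z (σ 1)) (z (σ 2)) := by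
  have hcases : ∀ i j k : Fin 3, i ≠ j → i ≠ k → j ≠ k →
      (i = 0 ∧ j = 1 ∧ k = 2) ∨ (i = 0 ∧ j = 2 ∧ k = 1) ∨ (i = 1 ∧ j = 0 ∧ k = 2) ∨
      (i = 1 ∧ j = 2 ∧ k = 0) ∨ (i = 2 ∧ j = 0 ∧ k = 1) ∨ (i = 2 ∧ j = 1 ∧ k = 0) := by decide
  have s12 : ∀ {a b c : U r}, T ε h a b c → T ε h b a c := fun h => T12 hh h
  have s23 : ∀ {a b c : U r}, T ε h a b c → T ε h a c b := fun h => T23 hmul hh hf h
  rcases hcases (σ 0) (σ 1) (σ 2) (by simp) (by simp) (by simp) with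
    ⟨e0, e1, e2⟩ | ⟨e0, e1, e2⟩ | ⟨e0, e1, e2⟩ | ⟨e0, e1, e2⟩ | ⟨e0, e1, e2⟩ | ⟨e0, e1, e2⟩
  all_goals rw [e0, e1, e2]
  · exact h1
  · exact s23 h1
  · exact s12 h1
  · exact s23 (s12 h1)
  · exact s12 (s23 h1)
  · exact s12 (s23 (s12 h1))

lemma T_rel {x y x' y' : U r} (h1 : Rel (x, y) (x', y')) (h2 : T ε h 1 x y) : T ε h 1 x' y' := by
  obtain ⟨σ, t, hσ⟩ := h1
  have e0 := hσ 0
  have e1 := hσ 1
  have e2 := hσ 2
  have f0 : trip (x', y') 0 = 1 := rfl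
  have f1 : trip (x', y') 1 = x' := rfl
  have f2 : trip (x', y') 2 = y' := rfl
  have h3 : T ε h (trip (x, y) 0) (trip (x, y) 1) (trip (x, y) 2) := h2
  have h4 := T_perm hmul hh hf (trip (x, y)) σ h3
  have h5 := (T_scale hmul hh t _ _ _).2 h4
  rwa [← e0, ← e1, ← e2, f0, f1, f2] at h5

lemma mem_NN (x y : U r) : mk x y ∈ NN ε h ↔ T ε h 1 x y := by
  constructor
  · rintro ⟨x', y', e, h1⟩
    exact T_rel hmul hh hf ((mk_eq_iff _ _ _ _).1 e.symm) h1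
  · intro h1
    exact ⟨x, y, rfl, h1⟩

lemma mem_iff (a b c : U r) : c.1 ∈ h a.1 b.1 ↔ mk (a⁻¹ * b) (a⁻¹ * (ε * c)) ∈ NN ε h := by
  rw [mem_NN hmul hh hf]
  have h1 := T_scale (ε := ε) hmul hh a⁻¹ a b (ε * c)
  rw [inv_mul_cancel] at h1
  rw [h1]
  unfold T
  rw [← mul_assoc, sq hmul hh hf, one_mul]

end

lemma inj (hmul : ∀ a b : U r, (a * b).1 = m a.1 b.1) {ε : U r} {h h' : Hyp r}
    (hh : IsHF (m, h)) (hf : ∀ c, c ∈ h (1 : U r).1 ε.1)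
    (hh' : IsHF (m, h')) (hf' : ∀ c, c ∈ h' (1 : U r).1 ε.1) (e : NN ε h = NN ε h') : h = h' := by
  have hz : ∀ a, h 0 a = {a} := hh.2.2.2.2.2.2.2.2.2.1
  have hz' : ∀ a, h' 0 a = {a} := hh'.2.2.2.2.2.2.2.2.2.1
  funext a b
  by_cases ha : a = 0
  · rw [ha, hz, hz']
  by_cases hb : b = 0
  · rw [hb, comm hh a 0, comm hh' a 0, hz, hz']
  ext c
  by_cases hc : c = 0
  · rw [hc]
    have h1 := zero_iff hmul hh hf ⟨a, ha⟩ ⟨b, hb⟩
    have h2 := zero_iff hmul hh' hf' ⟨a, ha⟩ ⟨b, hb⟩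
    exact h1.trans h2.symm
  · have h1 := mem_iff hmul hh hf ⟨a, ha⟩ ⟨b, hb⟩ ⟨c, hc⟩
    have h2 := mem_iff hmul hh' hf' ⟨a, ha⟩ ⟨b, hb⟩ ⟨c, hc⟩
    rw [← e] at h2
    exact h1.trans h2.symm

end Pool.Agent.K6.H55.HQ.NTOM

namespace Pool.Agent.K6.H55.HQ

/-- **NTOM** -/
theorem t_NTOM : S_NTOM := by
  intro r m _ hm hmul ε
  apply Set.ncard_le_ncard_of_injOn (NTOM.NN ε)
  · rintro h ⟨hh, hf⟩ y
    exact (NTOM.mem_NN hmul hh hf ε y).2 (hf _)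
  · rintro h ⟨hh, hf⟩ h' ⟨hh', hf'⟩ e
    exact NTOM.inj hmul hh hf hh' hf' e

end Pool.Agent.K6.H55.HQ
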