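import Pool.Agent.K6.H55.HQ.Stm

set_option autoImplicit false

/-!
The number of orbits of the triples.
-/

namespace Pool.Agent.K6.H55.HQ

theorem t_ORB : S_ORB := by
  intro A _ _
  classical
  let F : Equiv.Perm (Fin 3) × Orb A → A × A := fun p =>
    ((trip (Quotient.out p.2) (p.1 0))⁻¹ * trip (Quotient.out p.2) (p.1 1),
      (trip (Quotient.out p.2) (p.1 0))⁻¹ * trip (Quotient.out p.2) (p.1 2))
  have hF : Function.Surjective F := by
    intro p
    have hr : (oset A).r (Quotient.out (Quotient.mk (oset A) p)) p :=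
      @Quotient.exact _ (oset A) _ _ (Quotient.out_eq (Quotient.mk (oset A) p))
    obtain ⟨σ, t, h⟩ := hr
    refine ⟨(σ, Quotient.mk (oset A) p), ?_⟩
    have h0 : (1 : A) = t * trip (Quotient.out (Quotient.mk (oset A) p)) (σ 0) := h 0
    have h1 : p.1 = t * trip (Quotient.out (Quotient.mk (oset A) p)) (σ 1) := h 1
    have h2 : p.2 = t * trip (Quotient.out (Quotient.mk (oset A) p)) (σ 2) := h 2
    have ht : t = (trip (Quotient.out (Quotient.mk (oset A) p)) (σ 0))⁻¹ :=
      eq_inv_of_mul_eq_one_left h0.symm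
    rw [ht] at h1 h2
    exact Prod.ext h1.symm h2.symm
  have h := Nat.card_le_card_of_surjective F hF
  rw [Nat.card_prod, Nat.card_prod] at h
  have h6 : Nat.card (Equiv.Perm (Fin 3)) = 6 := by
    rw [Nat.card_eq_fintype_card, Fintype.card_perm]
    simp [Nat.factorial]
  rw [h6] at h
  rw [sq]
  exact h

end Pool.Agent.K6.H55.HQ
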