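import Pool.Agent.K6.H55.HQ.Stm

/-!
# Piece QHF: the quotient of a field by a group of units is a hyperfield (Krasner)
-/

set_option autoImplicit false

namespace Pool.Agent.K6.H55.HQ

namespace QHF

variable {r : ℕ} {p : Str r} {K : Type} [Field K] {G : Subgroup Kˣ} {f : K → Fin (r + 1)}

lemma mem_iff (h : Rep p K G f) (x y z : K) :
    f z ∈ p.2 (f x) (f y) ↔ ∃ g ∈ G, ∃ k ∈ G, z = x * ((g : Kˣ) : K) + y * ((k : Kˣ) : K) := by
  rw [h.2.2.2.2 x y]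
  constructor
  · rintro ⟨g, hg, k, hk, hz⟩
    obtain ⟨l, hl, e⟩ := (h.2.2.1 _ _).1 hz
    refine ⟨g * l⁻¹, G.mul_mem hg (G.inv_mem hl), k * l⁻¹, G.mul_mem hk (G.inv_mem hl), ?_⟩
    have hl0 : (l : K) ≠ 0 := l.ne_zero
    have e' : z = (x * (g : K) + y * (k : K)) * (l : K)⁻¹ := by
      rw [e, mul_inv_cancel_right₀ hl0]
    rw [e', Units.val_mul, Units.val_mul, Units.val_inv_eq_inv_val]
    ring
  · rintro ⟨g, hg, k, hk, hz⟩
    exact ⟨g, hg, k, hk, by rw [← hz]⟩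

lemma zero_iff (h : Rep p K G f) (x : K) : f x = 0 ↔ x = 0 := by
  constructor
  · intro hx
    rw [← h.2.1] at hx
    obtain ⟨g, -, e⟩ := (h.2.2.1 _ _).1 hx
    exact (mul_eq_zero.1 e.symm).resolve_right g.ne_zero
  · rintro rfl
    exact h.2.1

end QHF

open QHF in
theorem t_QHF : S_QHF := by
  rintro r p ⟨K, _, G, f, h⟩
  have hs := h.1
  have hm := h.2.2.2.1
  have hmem := mem_iff h
  have h0 := zero_iff h
  have hf0 := h.2.1
  have heq := h.2.2.1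
  have hone : ∀ x : K, p.1 (f 1) (f x) = f x := fun x => by rw [← hm, one_mul]
  refine ⟨⟨f 1, ?_, ?_⟩, ?_, ?_, ?_, ?_, ?_, ?_, ?_, ?_, ?_, ?_, ?_, ?_⟩
  · rw [Ne, h0]
    exact one_ne_zero
  · intro a
    obtain ⟨x, rfl⟩ := hs a
    exact hone x
  · intro a b
    obtain ⟨x, rfl⟩ := hs a
    obtain ⟨y, rfl⟩ := hs b
    rw [← hm, ← hm, mul_comm]
  · intro a b c
    obtain ⟨x, rfl⟩ := hs a
    obtain ⟨y, rfl⟩ := hs b
    obtain ⟨z, rfl⟩ := hs c
    rw [← hm, ← hm, ← hm, ← hm, mul_assoc]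
  · intro a
    obtain ⟨x, rfl⟩ := hs a
    have e := hm 0 x
    rw [zero_mul, hf0] at e
    exact e.symm
  · intro a b ha hb
    obtain ⟨x, rfl⟩ := hs a
    obtain ⟨y, rfl⟩ := hs b
    rw [Ne, h0] at ha hb
    rw [← hm, Ne, h0]
    exact mul_ne_zero ha hb
  · intro a ha
    obtain ⟨x, rfl⟩ := hs a
    rw [Ne, h0] at ha
    refine ⟨f x⁻¹, fun c => ?_⟩
    obtain ⟨z, rfl⟩ := hs c
    rw [← hm, mul_inv_cancel₀ ha]
    exact hone z
  · intro a b
    obtain ⟨x, rfl⟩ := hs a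
    obtain ⟨y, rfl⟩ := hs b
    exact ⟨f (x + y), (hmem x y _).2 ⟨1, G.one_mem, 1, G.one_mem, by simp⟩⟩
  · intro a b
    obtain ⟨x, rfl⟩ := hs a
    obtain ⟨y, rfl⟩ := hs b
    ext c
    obtain ⟨z, rfl⟩ := hs c
    rw [hmem, hmem]
    constructor
    · rintro ⟨g, hg, k, hk, e⟩
      exact ⟨k, hk, g, hg, by rw [e, add_comm]⟩
    · rintro ⟨g, hg, k, hk, e⟩
      exact ⟨k, hk, g, hg, by rw [e, add_comm]⟩
  · intro a b c
    obtain ⟨x, rfl⟩ := hs a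
    obtain ⟨y, rfl⟩ := hs b
    obtain ⟨w, rfl⟩ := hs c
    ext t
    obtain ⟨t, rfl⟩ := hs t
    simp only [Set.mem_iUnion]
    constructor
    · rintro ⟨s, hsm, ht⟩
      obtain ⟨s, rfl⟩ := hs s
      obtain ⟨g, hg, k, hk, e⟩ := (hmem _ _ _).1 hsm
      obtain ⟨g', hg', k', hk', e'⟩ := (hmem _ _ _).1 ht
      refine ⟨f (y * ((k * g' : Kˣ) : K) + w * (k' : K)), (hmem _ _ _).2
        ⟨k * g', G.mul_mem hk hg', k', hk', rfl⟩, (hmem _ _ _).2
        ⟨g * g', G.mul_mem hg hg', 1, G.one_mem, ?_⟩⟩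
      rw [e', e]
      push_cast
      ring
    · rintro ⟨s, hsm, ht⟩
      obtain ⟨s, rfl⟩ := hs s
      obtain ⟨g, hg, k, hk, e⟩ := (hmem _ _ _).1 hsm
      obtain ⟨g', hg', k', hk', e'⟩ := (hmem _ _ _).1 ht
      refine ⟨f (x * (g' : K) + y * ((g * k' : Kˣ) : K)), (hmem _ _ _).2
        ⟨g', hg', g * k', G.mul_mem hg hk', rfl⟩, (hmem _ _ _).2
        ⟨1, G.one_mem, k * k', G.mul_mem hk hk', ?_⟩⟩
      rw [e', e]
      push_cast
      ring
  · intro a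
    obtain ⟨y, rfl⟩ := hs a
    ext c
    obtain ⟨z, rfl⟩ := hs c
    rw [← hf0, hmem, Set.mem_singleton_iff]
    constructor
    · rintro ⟨g, hg, k, hk, e⟩
      rw [zero_mul, zero_add] at e
      exact ((heq y z).2 ⟨k, hk, e⟩).symm
    · intro e
      obtain ⟨k, hk, e'⟩ := (heq y z).1 e.symm
      exact ⟨1, G.one_mem, k, hk, by rw [zero_mul, zero_add, e']⟩
  · intro a
    obtain ⟨x, rfl⟩ := hs a
    refine ⟨f (-x), ?_, ?_⟩
    · show (0 : Fin (r + 1)) ∈ p.2 (f x) (f (-x))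
      rw [← hf0, hmem]
      exact ⟨1, G.one_mem, 1, G.one_mem, by simp⟩
    · intro b hb
      obtain ⟨y, rfl⟩ := hs b
      change (0 : Fin (r + 1)) ∈ p.2 (f x) (f y) at hb
      rw [← hf0, hmem] at hb
      obtain ⟨g, hg, k, hk, e⟩ := hb
      symm
      refine (heq (-x) y).2 ⟨g * k⁻¹, G.mul_mem hg (G.inv_mem hk), ?_⟩
      have hk0 : (k : K) ≠ 0 := k.ne_zero
      have e1 : y * (k : K) = -x * (g : K) := by linear_combination -e
      rw [Units.val_mul, Units.val_inv_eq_inv_val, ← mul_assoc, ← e1, mul_inv_cancel_right₀ hk0]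
  · intro a b c d hab hbd
    obtain ⟨z, rfl⟩ := hs a
    obtain ⟨x, rfl⟩ := hs b
    obtain ⟨y, rfl⟩ := hs c
    obtain ⟨w, rfl⟩ := hs d
    rw [hmem] at hab
    rw [← hf0, hmem] at hbd
    rw [hmem]
    obtain ⟨g, hg, k, hk, e⟩ := hab
    obtain ⟨g', hg', k', hk', e'⟩ := hbd
    refine ⟨k⁻¹, G.inv_mem hk, k' * g'⁻¹ * g * k⁻¹,
      G.mul_mem (G.mul_mem (G.mul_mem hk' (G.inv_mem hg')) hg) (G.inv_mem hk), ?_⟩
    have hk0 : (k : K) ≠ 0 := k.ne_zero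
    have hg0 : (g' : K) ≠ 0 := g'.ne_zero
    simp only [Units.val_mul, Units.val_inv_eq_inv_val]
    have e1 : w * (k' : K) = -(x * (g' : K)) := by linear_combination -e'
    have e2 : w * ((k' : K) * (g' : K)⁻¹ * (g : K) * (k : K)⁻¹) = -(x * (g : K)) * (k : K)⁻¹ := by
      calc w * ((k' : K) * (g' : K)⁻¹ * (g : K) * (k : K)⁻¹)
          = (w * (k' : K)) * (g' : K)⁻¹ * (g : K) * (k : K)⁻¹ := by ring
        _ = -(x * (g : K)) * (k : K)⁻¹ := by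
          rw [e1]
          field_simp
    rw [e2, e]
    field_simp
    ring
  · intro a b c
    obtain ⟨x, rfl⟩ := hs a
    obtain ⟨y, rfl⟩ := hs b
    obtain ⟨w, rfl⟩ := hs c
    ext t
    obtain ⟨t, rfl⟩ := hs t
    rw [← hm, ← hm, hmem]
    constructor
    · rintro ⟨s, hsm, hst⟩
      obtain ⟨s, rfl⟩ := hs s
      obtain ⟨g, hg, k, hk, e⟩ := (hmem _ _ _).1 hsm
      change p.1 (f x) (f s) = f t at hst
      rw [← hm] at hst
      obtain ⟨l, hl, e'⟩ := (heq _ _).1 hst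
      refine ⟨g * l, G.mul_mem hg hl, k * l, G.mul_mem hk hl, ?_⟩
      rw [e', e]
      push_cast
      ring
    · rintro ⟨g, hg, k, hk, e⟩
      refine ⟨f (y * (g : K) + w * (k : K)), (hmem _ _ _).2 ⟨g, hg, k, hk, rfl⟩, ?_⟩
      show p.1 (f x) (f (y * (g : K) + w * (k : K))) = f t
      rw [← hm, e]
      congr 1
      ring

end Pool.Agent.K6.H55.HQ
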