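import Pool.Agent.K6.H55.HQ.Stm

/-!
Piece QL of the project of helper55 (`MP_7ea459_al`), by helper36.
-/

set_option autoImplicit false

namespace Pool.Agent.K6.H55.HQ

theorem t_QL (h : S_FLD) : S_QL := by
  rintro r p K _ G f ⟨hs, h0, heq, hmul, hadd⟩ hF
  have hne : ∀ z : Kˣ, f (z : K) ≠ 0 := by
    intro z hz
    obtain ⟨g, -, hg⟩ := (heq (z : K) 0).1 (by rw [hz, h0])
    have : (z : K) * (g : K) ≠ 0 := mul_ne_zero z.ne_zero g.ne_zero
    exact this hg.symm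
  have hex : ∀ i : Fin r, ∃ a : Kˣ, f (a : K) = i.succ := by
    intro i
    obtain ⟨x, hx⟩ := hs i.succ
    have hx0 : x ≠ 0 := by
      rintro rfl
      rw [h0] at hx
      exact Fin.succ_ne_zero i hx.symm
    exact ⟨Units.mk0 x hx0, hx⟩
  choose a ha using hex
  have hcov : ∀ z : Kˣ, ∃ i, ∃ g ∈ G, z = a i * g := by
    intro z
    obtain ⟨i, hi⟩ := Fin.exists_succ_eq.2 (hne z)
    obtain ⟨g, hg, hz⟩ := (heq (a i : K) (z : K)).1 (by rw [ha, hi])
    exact ⟨i, g, hg, Units.ext (by rw [Units.val_mul]; exact hz)⟩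
  have hd := h K G r a hcov hF
  refine ⟨f 1, f (-1), ?_, ?_, ?_⟩
  · have := hne 1
    rwa [Units.val_one] at this
  · intro c
    obtain ⟨y, rfl⟩ := hs c
    rw [← hmul, one_mul]
  · intro c
    obtain ⟨b, rfl⟩ := hs c
    obtain ⟨g, hg, g', hg', hb⟩ := hd b
    rw [hadd]
    refine ⟨g, hg, g', hg', ?_⟩
    rw [hb]
    congr 1
    ring

end Pool.Agent.K6.H55.HQ
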