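import Pool.Agent.K6.H55.HQ.Stm

/-!
Piece QS of the project of helper55 (`MP_7ea459_al`), by helper36.
-/

set_option autoImplicit false

namespace Pool.Agent.K6.H55.HQ

theorem t_QS (h1 : S_ISOF) (h2 : S_ISO) : S_QS := by
  intro r X
  have key : ∀ C ∈ {C : Set (Str r) | ∃ p : Str r, (∃ (K : Type) (_ : Field K) (G : Subgroup Kˣ)
      (f : K → Fin (r+1)), Rep p K G f ∧ Finite K ∧ Nat.card K < X) ∧
      C = {q | IsQ q ∧ Iso p q}}, ∃ n : ℕ, n < X ∧ ∃ p : Str r,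
      (∃ (K : Type) (_ : Field K) (G : Subgroup Kˣ) (f : K → Fin (r+1)),
        Rep p K G f ∧ Finite K ∧ Nat.card K = n) ∧ C = {q | IsQ q ∧ Iso p q} := by
    rintro C ⟨p, ⟨K, iK, G, f, hR, hF, hlt⟩, hC⟩
    exact ⟨Nat.card K, hlt, p, ⟨K, iK, G, f, hR, hF, rfl⟩, hC⟩
  choose! φ hφ using key
  have h3 := Set.ncard_le_ncard_of_injOn φ (t := ((Finset.range X : Finset ℕ) : Set ℕ))
    (fun C hC => by
      rw [Finset.mem_coe, Finset.mem_range]
      exact (hφ C hC).1) (fun C hC C' hC' heq => ?_) (Finset.finite_toSet _)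
  · rw [Set.ncard_coe_finset, Finset.card_range] at h3
    exact h3
  · obtain ⟨-, p, ⟨K, iK, G, f, hR, hF, hn⟩, hC1⟩ := hφ C hC
    obtain ⟨-, p', ⟨K', iK', G', f', hR', hF', hn'⟩, hC1'⟩ := hφ C' hC'
    have hiso : Iso p p' := h1 r p p' K K' G G' f f' (by rw [hn, hn', heq]) hR hR'
    rw [hC1, hC1']
    ext q
    constructor
    · rintro ⟨hq, hpq⟩
      exact ⟨hq, (h2 r).trans ((h2 r).symm hiso) hpq⟩
    · rintro ⟨hq, hpq⟩
      exact ⟨hq, (h2 r).trans hiso hpq⟩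

end Pool.Agent.K6.H55.HQ
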