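import Pool.Agent.K6.H55.HQ.Stm

/-!
# Piece SIX
-/

set_option autoImplicit false

namespace Pool.Agent.K6.H55.HQ

theorem t_SIX : S_SIX := by
  intro A _ _ x q
  obtain ⟨⟨x0, y0⟩, rfl⟩ := Quotient.exists_rep q
  have h1 : {y : A | mk x y = Quotient.mk (oset A) (x0, y0)} ⊆ Set.range
      (fun σ : Equiv.Perm (Fin 3) => (trip (x0, y0) (σ 0))⁻¹ * trip (x0, y0) (σ 2)) := by
    intro y hy
    have hy' : mk x0 y0 = mk x y := Eq.symm hy
    obtain ⟨σ, t, h⟩ := (mk_eq_iff x0 y0 x y).1 hy'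
    refine ⟨σ, ?_⟩
    have h0 := h 0
    have h2 := h 2
    have e0 : trip (x, y) 0 = 1 := rfl
    have e2 : trip (x, y) 2 = y := rfl
    rw [e0] at h0
    rw [e2] at h2
    show (trip (x0, y0) (σ 0))⁻¹ * trip (x0, y0) (σ 2) = y
    have ht : t = (trip (x0, y0) (σ 0))⁻¹ := eq_inv_of_mul_eq_one_left h0.symm
    rw [h2, ht]
  refine (Set.ncard_le_ncard h1 (Set.finite_range _)).trans ?_
  rw [← Set.image_univ]
  refine (Set.ncard_image_le (Set.toFinite _)).trans ?_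
  rw [Set.ncard_univ, Nat.card_eq_fintype_card, Fintype.card_perm, Fintype.card_fin]
  decide

end Pool.Agent.K6.H55.HQ
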